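import Pool.Agent.Lib.MP_fe5cb4_co.ApexDist

/-!
A spherical `r`-regular map with the odd-cut condition, in which the vertices off one face `h`
induce a bipartite graph, has a proper `r`-edge-colouring.
-/

set_option autoImplicit false

namespace Pool.Agent.Lib.MP_fe5cb4_co

open Finset

namespace SMap

variable {D V F : Type} [Fintype D] [Fintype V] [Fintype F] (M : SMap D V F)
  [DecidableEq D] [DecidableEq V] [DecidableEq F] {r : ℕ}

omit [DecidableEq D] [DecidableEq V] [DecidableEq F] in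
/-- An orientation of the edges that is constant around each vertex off the face `h`. -/
lemma exists_eta_apex (I : V → Prop) (side : V → Bool)
    (hside : ∀ d, I (M.vtx d) → I (M.vtx (M.α d)) → side (M.vtx (M.α d)) ≠ side (M.vtx d)) :
    ∃ η : D → ℤ, (∀ d, η d = 1 ∨ η d = -1) ∧ (∀ d, η (M.α d) = -η d) ∧
      ∀ v, I v → ∃ t : ℤ, (t = 1 ∨ t = -1) ∧ ∀ d, M.vtx d = v → η d = t := by
  classical
  let sg : Bool → ℤ := fun b => if b = true then 1 else -1
  have hsg : ∀ b, sg b = 1 ∨ sg b = -1 := by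
    intro b
    cases b <;> simp [sg]
  refine ⟨fun d => if I (M.vtx d) then sg (side (M.vtx d))
    else if I (M.vtx (M.α d)) then -sg (side (M.vtx (M.α d))) else sg (M.o d), fun d => ?_,
    fun d => ?_, fun v hv => ⟨sg (side v), hsg _, fun d hd => ?_⟩⟩
  · simp only
    split_ifs
    · exact hsg _
    · rcases hsg (side (M.vtx (M.α d))) with e | e <;> rw [e] <;> simp
    · exact hsg _
  · simp only [M.αα, M.oα]
    by_cases h1 : I (M.vtx d) <;> by_cases h2 : I (M.vtx (M.α d))
    · have := hside d h1 h2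
      simp only [h1, h2, if_true]
      revert this
      cases side (M.vtx (M.α d)) <;> cases side (M.vtx d) <;> simp [sg]
    · simp [h1, h2]
    · simp [h1, h2]
    · simp only [h1, h2, if_false]
      cases M.o d <;> simp [sg]
  · subst hd
    simp [hv]

omit [DecidableEq D] [DecidableEq F] in
/-- From arcs to colours. -/
lemma colour_of_arcs [NeZero r] (deg : ∀ v, #{d | M.vtx d = v} = r)
    (χ : D → ZMod 2) (hχ : ∀ d, χ (M.α d) = χ d) (hχ1 : ∀ v, ∑ d with M.vtx d = v, χ d = 1)
    (T : D → ZMod r → ZMod 2) (h1 : ∀ d, T (M.σ (M.α d)) = T d)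
    (h2 : ∀ d, ∃ c0, ∀ c, T (M.σ d) c + χ d = T d c + if c = c0 then 1 else 0) :
    ∃ c : D → ZMod r, (∀ d, c (M.α d) = c d) ∧
      ∀ d d', M.vtx d = M.vtx d' → c d = c d' → d = d' := by
  choose col hcol using h2
  refine ⟨col, fun d => ?_, fun d d' hv hc => ?_⟩
  · have e1 := hcol d (col d)
    have e2 := hcol (M.α d) (col d)
    have e3 := h1 (M.α d)
    rw [M.αα] at e3
    rw [h1, hχ] at e2
    rw [e3, if_pos rfl] at e1
    by_contra hne
    rw [if_neg (fun e => hne e.symm)] at e2
    revert e1 e2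
    generalize T d (col d) = x
    generalize T (M.α d) (col d) = y
    generalize χ d = z
    revert x y z
    decide
  · have hsurj : ∀ c, ∃ x ∈ univ.filter (fun x => M.vtx x = M.vtx d), col x = c := by
      intro c
      by_contra hno
      push Not at hno
      have e1 : ∑ x with M.vtx x = M.vtx d, (T (M.σ x) c + χ x)
          = ∑ x with M.vtx x = M.vtx d, T x c := by
        refine sum_congr rfl fun x hx => ?_
        rw [hcol, if_neg (fun e => hno x hx e.symm), add_zero]
      rw [sum_add_distrib, hχ1, sum_perm M.σ (fun x => M.vtx x = M.vtx d)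
        (fun x => by rw [M.vσ]) (fun x => T x c)] at e1
      exact one_ne_zero (add_eq_left.mp e1)
    exact Finset.inj_on_of_surj_on_of_card_le (s := univ.filter fun x => M.vtx x = M.vtx d)
      (t := (univ : Finset (ZMod r))) (fun x _ => col x) (fun _ _ => mem_univ _)
      (fun c _ => by
        obtain ⟨x, hx, e⟩ := hsurj c
        exact ⟨x, hx, e⟩)
      (by rw [deg, card_univ, ZMod.card]) (by simp) (by simp [hv]) hc

theorem apex_colouring [NeZero r] (deg : ∀ v, #{d | M.vtx d = v} = r)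
    (hfc : ∀ x y, M.fc x = M.fc y → (M.σ * M.α).SameCycle x y)
    (hcut : ∀ X : Finset V, Odd #X → r ≤ #{d | M.vtx d ∈ X ∧ M.vtx (M.α d) ∉ X})
    (h : F) (side : V → Bool)
    (hside : ∀ d, (∀ x, M.vtx x = M.vtx d → M.fc x ≠ h) →
      (∀ x, M.vtx x = M.vtx (M.α d) → M.fc x ≠ h) → side (M.vtx (M.α d)) ≠ side (M.vtx d)) :
    ∃ c : D → ZMod r, (∀ d, c (M.α d) = c d) ∧
      ∀ d d', M.vtx d = M.vtx d' → c d = c d' → d = d' := by
  classical
  have hr : 1 ≤ r := Nat.pos_of_ne_zero (NeZero.ne r)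
  have hV : Even (Fintype.card V) := by
    by_contra hne
    have := hcut univ (by rwa [card_univ, ← Nat.not_even_iff_odd])
    simp at this
    omega
  obtain ⟨χ, hχ, hχ1⟩ := M.exists_chi hV
  obtain ⟨a, ha1, ha2, ha3, ha4⟩ := M.exists_lat hr deg hcut χ hχ hχ1 h
  obtain ⟨η, hη1, hη2, hη3⟩ := M.exists_eta_apex (fun v => ∀ x, M.vtx x = v → M.fc x ≠ h) side hside
  have h01 : ∀ y : ZMod 2, y = 0 ∨ y = 1 := by decide
  have ha5 : ∀ f ε, a f ε ≤ r := fun f ε => by
    have := ha2 f ε
    have := ha4 f (ε + 1)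
    omega
  have ha6 : ∀ f, a f 1 = r - a f 0 := fun f => by simpa using ha2 f 0
  have ha7 : ∀ d, a (M.fc (M.α d)) (χ d) = a (M.fc d) 0 + 1 ∨
      a (M.fc (M.α d)) (χ d) = a (M.fc d) 0 - 1 := fun d => by simpa using ha1 d 0
  let k : D → ℤ := fun d => if χ d = 0 then 0 else 1
  let W : D → ℤ := fun d =>
    (η d - (a (M.fc (M.α d)) (χ d) - a (M.fc d) 0)) / 2 + k d * a (M.fc (M.α d)) (χ d)
  let ω : D → ZMod r := fun d => (W d : ZMod r)
  have hW : ∀ d, 2 * W d = η d + r * k d + a (M.fc d) 0 - a (M.fc (M.σ d)) 0 := by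
    intro d
    have e1 := ha7 d
    have e2 := hη1 d
    rw [M.fσ]
    rcases h01 (χ d) with e | e
    · simp only [W, k, e, if_true] at e1 ⊢
      omega
    · simp only [W, k, e, ha6, one_ne_zero, if_false] at e1 ⊢
      omega
  have hanti : ∀ d, ω d + ω (M.α d) = 0 := by
    intro d
    have e1 := hW d
    have e2 := hW (M.α d)
    rw [M.fφ, hη2] at e2
    rw [M.fσ] at e1
    have e3 : k (M.α d) = k d := by simp only [k, hχ]
    have e4 : W d + W (M.α d) = r * k d := by
      rw [e3] at e2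
      omega
    simp only [ω]
    rw [← Int.cast_add, e4]
    simp
  have hinner : ∀ v, (∀ x, M.vtx x = v → M.fc x ≠ h) → ∑ d with M.vtx d = v, ω d = 0 := by
    intro v hv
    obtain ⟨t, ht, ht'⟩ := hη3 v hv
    have e1 : 2 * ∑ d with M.vtx d = v, W d = r * (t + ∑ d with M.vtx d = v, k d) := by
      rw [mul_sum, sum_congr rfl (fun d _ => hW d), sum_sub_distrib,
        sum_perm M.σ (fun x => M.vtx x = v) (fun x => by rw [M.vσ]) (fun x => a (M.fc x) 0),
        sum_add_distrib, add_sub_cancel_right, sum_add_distrib,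
        sum_congr rfl (fun d hd => ht' d (mem_filter.mp hd).2), sum_const, deg, ← mul_sum]
      simp [mul_add]
    have e2 : ((∑ d with M.vtx d = v, k d : ℤ) : ZMod 2) = 1 := by
      rw [← hχ1 v]
      push_cast
      refine sum_congr rfl fun d _ => ?_
      rcases h01 (χ d) with e | e <;> simp [k, e]
    obtain ⟨m, hm⟩ : Even (t + ∑ d with M.vtx d = v, k d) := by
      rw [← ZMod.intCast_eq_zero_iff_even]
      push_cast at e2 ⊢
      rw [e2]
      rcases ht with e | e <;> rw [e] <;> decide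
    have e3 : ∑ d with M.vtx d = v, W d = r * m := by
      rw [hm] at e1
      linarith
    simp only [ω]
    rw [← Int.cast_sum, e3]
    simp
  have hdes : ∀ v, ∃ s : Finset D, (∀ x ∈ s, M.vtx x = v ∧ M.fc x = h) ∧
      ∑ _x ∈ s, ∑ d with M.vtx d = v, ω d = ∑ d with M.vtx d = v, ω d := by
    intro v
    by_cases hv : ∀ x, M.vtx x = v → M.fc x ≠ h
    · exact ⟨∅, by simp, by rw [hinner v hv, sum_empty]⟩
    · push Not at hv
      obtain ⟨x, e1, e2⟩ := hv
      exact ⟨{x}, by simp [e1, e2], by simp⟩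
  choose des hdes1 hdes2 using hdes
  let cr : D → ZMod r := fun x =>
    if x ∈ des (M.vtx x) then ∑ d with M.vtx d = M.vtx x, ω d else 0
  have hcr0 : ∀ x, M.fc x ≠ h → cr x = 0 := fun x hx =>
    if_neg fun e => hx (hdes1 _ x e).2
  have hcr1 : ∀ v, ∑ x with M.vtx x = v, cr x = ∑ d with M.vtx d = v, ω d := by
    intro v
    rw [← hdes2 v]
    simp only [cr]
    rw [← sum_filter, filter_filter]
    refine sum_congr ?_ fun x hx => by rw [(hdes1 v x hx).1]
    ext x
    simp only [mem_filter, mem_univ, true_and]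
    constructor
    · rintro ⟨rfl, e⟩
      exact e
    · intro e
      have := (hdes1 v x e).1
      exact ⟨this, this ▸ e⟩
  obtain ⟨p, hp1, hp2⟩ := M.lift hfc (fun d => ω d - cr d) (fun d => -cr d)
    (fun v => by rw [sum_sub_distrib, hcr1, sub_self])
    (fun f => by
      rw [sum_neg_distrib, neg_eq_zero]
      by_cases hf : f = h
      · have e1 : ∑ d with M.fc d = f, cr d = ∑ d, cr d := by
          refine sum_subset (filter_subset _ _) fun x _ hx => hcr0 x ?_
          simpa [hf] using hx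
        rw [e1, M.sum_vtx, sum_congr rfl (fun v _ => hcr1 v), ← M.sum_vtx, M.sum_o]
        exact sum_eq_zero fun x _ => hanti x
      · exact sum_eq_zero fun x hx => hcr0 x (by rw [(mem_filter.mp hx).2]; exact hf))
    (fun d => by linear_combination hanti d)
  have hT : ∀ d (q : ZMod r), (M.fc d ≠ h → q = p d) →
      arc q (a (M.fc d) 0) = arc (p d) (a (M.fc d) 0) := by
    intro d q hq
    by_cases hd : M.fc d = h
    · funext c
      rw [hd, ha3, arc_zero, arc_zero]
    · rw [hq hd]
  refine M.colour_of_arcs deg χ hχ hχ1 (fun d => arc (p d) (a (M.fc d) 0)) (fun d => ?_)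
    (fun d => ?_)
  · simp only [M.fφ]
    exact hT d _ fun hd => by rw [hp2, hcr0 d hd, neg_zero, add_zero]
  · obtain ⟨c0, hc0⟩ := arc_step (p d - cr d) _ _ (η d) (ha4 (M.fc d) 0) (ha5 _ _)
      (ha4 (M.fc (M.α d)) (χ d)) (ha5 _ _) (ha7 d) (hη1 d)
    refine ⟨c0, fun c => ?_⟩
    rw [hT d (p d - cr d) fun hd => by rw [hcr0 d hd, sub_zero]] at hc0
    rw [← hc0 c, hp1, M.fσ]
    rcases h01 (χ d) with e | e
    · simp only [ω, W, k, e, if_true, zero_mul, add_zero]
      congr 1
      ring
    · rw [← arc_compl _ c _ (ha4 (M.fc (M.α d)) (χ d)) (ha5 _ _)]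
      simp only [ω, W, k, e, one_ne_zero, if_false, one_mul, ha6, sub_sub_cancel]
      congr 2
      push_cast
      ring

end SMap

end Pool.Agent.Lib.MP_fe5cb4_co
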