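import Mathlib

/-!
Arcs of the cyclic group of order `r`, as indicator functions with values in `ZMod 2`, and the
latitude function built from two distances.
-/

set_option autoImplicit false

namespace Pool.Agent.Lib.MP_fe5cb4_co

section
variable {r : ℕ} [NeZero r]

/-- Indicator of the arc of length `a` starting at `p`. -/
def arc (p : ZMod r) (a : ℤ) (c : ZMod r) : ZMod 2 := if ((c - p).val : ℤ) < a then 1 else 0

lemma val_eq_iff (z : ZMod r) (a : ℤ) (h0 : 0 ≤ a) (h1 : a < r) :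
    (z.val : ℤ) = a ↔ z = (a : ZMod r) := by
  constructor
  · intro h
    rw [← h]
    simp
  · intro h
    rw [h, ZMod.val_intCast, Int.emod_eq_of_lt h0 h1]

lemma val_sub_int (z : ZMod r) (a : ℤ) (h0 : 0 ≤ a) (h1 : a ≤ r) :
    ((z - (a : ZMod r)).val : ℤ) = if a ≤ (z.val : ℤ) then (z.val : ℤ) - a else z.val - a + r := by
  have hz : (z.val : ℤ) < r := by exact_mod_cast ZMod.val_lt z
  have hz0 : (0 : ℤ) ≤ z.val := Int.natCast_nonneg _
  split_ifs with h
  · rw [val_eq_iff _ _ (by omega) (by omega)]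
    simp
  · rw [val_eq_iff _ _ (by omega) (by omega)]
    simp

omit [NeZero r] in
lemma arc_zero (p c : ZMod r) : arc p 0 c = 0 := by
  have : (0 : ℤ) ≤ (c - p).val := Int.natCast_nonneg _
  simp only [arc]
  rw [if_neg (by omega)]

lemma arc_compl (p c : ZMod r) (a : ℤ) (h0 : 0 ≤ a) (h1 : a ≤ r) :
    arc (p + (a : ZMod r)) (r - a) c + 1 = arc p a c := by
  have hz : ((c - p).val : ℤ) < r := by exact_mod_cast ZMod.val_lt (c - p)
  have hz0 : (0 : ℤ) ≤ (c - p).val := Int.natCast_nonneg _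
  have h := val_sub_int (c - p) a h0 h1
  simp only [arc]
  rw [← sub_sub, h]
  split_ifs <;> first | rfl | omega

lemma arc_right (p c : ZMod r) (a : ℤ) (h0 : 0 ≤ a) (h1 : a < r) :
    arc p (a + 1) c = arc p a c + if c = p + (a : ZMod r) then 1 else 0 := by
  have h := val_eq_iff (c - p) a h0 h1
  rw [sub_eq_iff_eq_add'] at h
  simp only [arc, ← h]
  split_ifs <;> first | rfl | omega

lemma arc_left (p c : ZMod r) (a : ℤ) (h0 : 0 ≤ a) (h1 : a < r) :
    arc p (a + 1) c = arc (p + 1) a c + if c = p then 1 else 0 := by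
  have hr : (1 : ℤ) ≤ r := by omega
  have h := val_sub_int (c - p) 1 (by norm_num) hr
  have h2 := val_eq_iff (c - p) 0 le_rfl (by omega)
  have hz : ((c - p).val : ℤ) < r := by exact_mod_cast ZMod.val_lt (c - p)
  have hz0 : (0 : ℤ) ≤ (c - p).val := Int.natCast_nonneg _
  rw [Int.cast_zero, sub_eq_zero] at h2
  rw [Int.cast_one] at h
  simp only [arc]
  rw [← sub_sub, h]
  simp only [← h2]
  split_ifs <;> first | rfl | omega

/-- One step changes the arc at exactly one point. -/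
lemma arc_step (p : ZMod r) (a b η : ℤ) (ha0 : 0 ≤ a) (ha1 : a ≤ r) (hb0 : 0 ≤ b) (hb1 : b ≤ r)
    (hab : b = a + 1 ∨ b = a - 1) (hη : η = 1 ∨ η = -1) :
    ∃ c0 : ZMod r, ∀ c, arc (p + (((η - (b - a)) / 2 : ℤ) : ZMod r)) b c
      = arc p a c + if c = c0 then 1 else 0 := by
  have two : ∀ x y z : ZMod 2, x = y + z → y = x + z := by decide
  rcases hab with rfl | rfl <;> rcases hη with rfl | rfl
  · refine ⟨p + (a : ZMod r), fun c => ?_⟩
    have : (1 - (a + 1 - a)) / 2 = (0 : ℤ) := by omega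
    rw [this, Int.cast_zero, add_zero]
    exact arc_right p c a ha0 (by omega)
  · refine ⟨p - 1, fun c => ?_⟩
    have : (-1 - (a + 1 - a)) / 2 = (-1 : ℤ) := by omega
    rw [this, Int.cast_neg, Int.cast_one, ← sub_eq_add_neg]
    have h := arc_left (p - 1) c a ha0 (by omega)
    rwa [sub_add_cancel] at h
  · refine ⟨p, fun c => ?_⟩
    have : (1 - (a - 1 - a)) / 2 = (1 : ℤ) := by omega
    rw [this, Int.cast_one]
    have h := arc_left p c (a - 1) hb0 (by omega)
    rw [sub_add_cancel] at h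
    exact two _ _ _ h
  · refine ⟨p + ((a - 1 : ℤ) : ZMod r), fun c => ?_⟩
    have : (-1 - (a - 1 - a)) / 2 = (0 : ℤ) := by omega
    rw [this, Int.cast_zero, add_zero]
    have h := arc_right p c (a - 1) hb0 (by omega)
    rw [sub_add_cancel] at h
    exact two _ _ _ h

end

/-- The middle latitude of the right parity. -/
def midLat (r d1 : ℤ) (s : Bool) : ℤ :=
  if (d1 - r / 2) % 2 = 0 then r / 2
  else if r % 2 = 1 then r / 2 + 1 else if s = true then r / 2 + 1 else r / 2 - 1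

/-- The latitude built from the distances to the two poles. -/
def lat (r d1 d2 : ℤ) (s : Bool) : ℤ := min d1 (max (r - d2) (midLat r d1 s))

lemma midLat_nonneg (r d1 : ℤ) (s : Bool) (hr : 1 ≤ r) : 0 ≤ midLat r d1 s := by
  simp only [midLat]
  split_ifs <;> omega

lemma midLat_par (r d1 : ℤ) (s : Bool) : (midLat r d1 s - d1) % 2 = 0 := by
  simp only [midLat]
  split_ifs <;> omega

lemma midLat_swap (r d1 d2 : ℤ) (s : Bool) (hp : (d1 + d2 - r) % 2 = 0) :
    midLat r d2 (!s) = r - midLat r d1 s := by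
  cases s <;> simp only [midLat, Bool.not_true, Bool.not_false, Bool.false_eq_true,
    if_true, if_false] <;> split_ifs <;> omega

lemma midLat_step (r d1 e1 : ℤ) (s t : Bool) (h1 : e1 = d1 + 1 ∨ e1 = d1 - 1) :
    midLat r e1 t = midLat r d1 s + 1 ∨ midLat r e1 t = midLat r d1 s - 1 := by
  cases s <;> cases t <;> simp only [midLat, Bool.false_eq_true,
    if_true, if_false] <;> split_ifs <;> omega

lemma lat_nonneg (r d1 d2 : ℤ) (s : Bool) (hr : 1 ≤ r) (h1 : 0 ≤ d1) : 0 ≤ lat r d1 d2 s :=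
  le_min h1 (le_max_of_le_right (midLat_nonneg r d1 s hr))

lemma lat_zero (r d2 : ℤ) (s : Bool) (hr : 1 ≤ r) : lat r 0 d2 s = 0 :=
  min_eq_left (le_max_of_le_right (midLat_nonneg r 0 s hr))

lemma lat_swap (r d1 d2 : ℤ) (s : Bool) (h : r ≤ d1 + d2) (hp : (d1 + d2 - r) % 2 = 0) :
    lat r d2 d1 (!s) = r - lat r d1 d2 s := by
  simp only [lat, midLat_swap r d1 d2 s hp]
  generalize midLat r d1 s = m
  omega

lemma min_step (x y x' y' : ℤ) (hp : (x - y) % 2 = 0) (hx : x' = x + 1 ∨ x' = x - 1)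
    (hy : y' = y + 1 ∨ y' = y - 1) : min x' y' = min x y + 1 ∨ min x' y' = min x y - 1 := by
  omega

lemma max_step (x y x' y' : ℤ) (hp : (x - y) % 2 = 0) (hx : x' = x + 1 ∨ x' = x - 1)
    (hy : y' = y + 1 ∨ y' = y - 1) : max x' y' = max x y + 1 ∨ max x' y' = max x y - 1 := by
  omega

lemma lat_step (r d1 d2 e1 e2 : ℤ) (s t : Bool) (hp : (d1 + d2 - r) % 2 = 0)
    (h1 : e1 = d1 + 1 ∨ e1 = d1 - 1) (h2 : e2 = d2 + 1 ∨ e2 = d2 - 1) :
    lat r e1 e2 t = lat r d1 d2 s + 1 ∨ lat r e1 e2 t = lat r d1 d2 s - 1 := by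
  have hm := midLat_par r d1 s
  have hs := midLat_step r d1 e1 s t h1
  simp only [lat]
  generalize midLat r d1 s = m at hm hs ⊢
  generalize midLat r e1 t = m' at hs ⊢
  exact min_step _ _ _ _ (by omega) h1 (max_step _ _ _ _ (by omega) (by omega) hs)

end Pool.Agent.Lib.MP_fe5cb4_co
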