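import Pool.Agent.Lib.MP_fe5cb4_co.SMap
import Pool.Agent.Lib.MP_fe5cb4_co.ApexArc

/-!
Signed distances between faces of a spherical map, and the latitude function with a pole at a
given face.
-/

set_option autoImplicit false

namespace Pool.Agent.Lib.MP_fe5cb4_co

open Finset

namespace SMap

variable {D V F : Type} [Fintype D] [Fintype V] [Fintype F] (M : SMap D V F)
  [DecidableEq D] [DecidableEq V] [DecidableEq F]

omit [DecidableEq D] [DecidableEq V] [DecidableEq F] in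
lemma sum_o {A : Type} [AddCommMonoid A] (g : D → A) :
    ∑ d, g d = ∑ d with M.o d = true, (g d + g (M.α d)) := by
  rw [sum_split M.α M.o M.oα, ← sum_add_distrib,
    sum_subtype (p := fun d => M.o d = true) _ (fun d => by simp)]

omit [DecidableEq D] [DecidableEq F] in
/-- A symmetric `ZMod 2` weighting of the darts with odd sum at each vertex. -/
lemma exists_chi (hV : Even (Fintype.card V)) :
    ∃ χ : D → ZMod 2, (∀ d, χ (M.α d) = χ d) ∧ ∀ v, ∑ d with M.vtx d = v, χ d = 1 := by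
  obtain ⟨z, hz⟩ := exists_flow (A := ZMod 2) (fun e : {d // M.o d = true} => M.vtx e.1)
    (fun e => M.vtx (M.α e.1)) (fun _ => ())
    (by
      intro S hS u v _ hu
      obtain ⟨d, rfl⟩ := M.vsurj u
      obtain ⟨d', rfl⟩ := M.vsurj v
      refine M.conn {x | M.vtx x ∈ S} (fun x => by simp [M.vσ]) (fun x => ?_) d d' hu
      by_cases h : M.o x = true
      · exact (hS ⟨x, h⟩).symm
      · have := hS ⟨M.α x, by simpa [M.oα] using h⟩
        simpa [M.αα] using this)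
    (fun _ => 1)
    (by
      intro c
      simp only [filter_true, sum_const, card_univ, nsmul_eq_mul, mul_one]
      exact (ZMod.natCast_eq_zero_iff_even).mpr hV)
  let χ : D → ZMod 2 := fun d =>
    if h : M.o d = true then z ⟨d, h⟩ else z ⟨M.α d, by simpa [M.oα] using h⟩
  have hχ : ∀ d, χ (M.α d) = χ d := by
    intro d
    by_cases h : M.o d = true
    · have h' : ¬ M.o (M.α d) = true := by simp [M.oα, h]
      simp only [χ, dif_pos h, dif_neg h', M.αα]
    · have h' : M.o (M.α d) = true := by simpa [M.oα] using h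
      simp only [χ, dif_neg h, dif_pos h']
  refine ⟨χ, hχ, fun v => ?_⟩
  have h1 := congrFun hz v
  rw [dv_apply, sum_filter, sum_filter, CharTwo.sub_eq_add] at h1
  rw [sum_filter, sum_split M.α M.o M.oα, ← h1]
  congr 1
  · refine sum_congr rfl fun e _ => ?_
    simp only [χ, dif_pos e.2]
  · refine sum_congr rfl fun e _ => ?_
    rw [hχ]
    simp only [χ, dif_pos e.2]

omit [DecidableEq D] [DecidableEq F] in
lemma sum_vtx {A : Type} [AddCommMonoid A] (g : D → A) :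
    ∑ d, g d = ∑ v, ∑ d with M.vtx d = v, g d :=
  (sum_fiberwise univ M.vtx g).symm

/-- The coboundary of a vertex function. -/
def cob (q : V → ZMod 2) (d : D) : ZMod 2 := q (M.vtx d) + q (M.vtx (M.α d))

omit [DecidableEq D] [DecidableEq V] in
lemma cob_closed (q : V → ZMod 2) (g : F) : ∑ x with M.fc x = g, M.cob q x = 0 := by
  simp only [cob]
  rw [sum_add_distrib, ← sum_perm (M.σ * M.α) (fun x => M.fc x = g)
    (fun x => by rw [Equiv.Perm.mul_apply, M.fφ]) (fun x => q (M.vtx x))]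
  simp only [Equiv.Perm.mul_apply, M.vσ]
  exact CharTwo.add_self_eq_zero _

omit [DecidableEq D] [DecidableEq F] in
lemma cob_weight (q : V → ZMod 2) (χ : D → ZMod 2) (hχ : ∀ d, χ (M.α d) = χ d) (k : ZMod 2)
    (hk : ∀ v, ∑ d with M.vtx d = v, χ d = k) :
    ∑ x with M.o x = true, M.cob q x * χ x = k * ∑ v, q v := by
  have h := M.sum_o (fun d => q (M.vtx d) * χ d)
  simp only [hχ, ← add_mul] at h
  simp only [cob]
  rw [← h, M.sum_vtx, mul_sum]
  refine sum_congr rfl fun v _ => ?_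
  rw [← hk v, sum_mul]
  refine sum_congr rfl fun d hd => ?_
  rw [(mem_filter.mp hd).2, mul_comm]

/-- There is a chain of dual edges from `h` to `f` with sign `ε` and `n` edges. -/
def Ch (χ : D → ZMod 2) (h f : F) (ε : ZMod 2) (n : ℕ) : Prop :=
  ∃ ω : D → ZMod 2, (∀ d, ω (M.α d) = ω d) ∧
    (∀ g, ∑ x with M.fc x = g, ω x = (if h = g then 1 else 0) + if f = g then 1 else 0) ∧
    ∑ x with M.o x = true, ω x * χ x = ε ∧ #{x | M.o x = true ∧ ω x ≠ 0} = n

omit [DecidableEq D] [DecidableEq V] [DecidableEq F] in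
lemma wt_cast (ω : D → ZMod 2) :
    ((#{x | M.o x = true ∧ ω x ≠ 0} : ℕ) : ZMod 2) = ∑ x with M.o x = true, ω x := by
  rw [card_filter, sum_filter]
  push_cast
  refine sum_congr rfl fun x _ => ?_
  have : ∀ y : ZMod 2, y = 0 ∨ y = 1 := by decide
  by_cases h : M.o x = true <;> rcases this (ω x) with h1 | h1 <;> simp [h, h1]

omit [DecidableEq D] [DecidableEq V] in
lemma ch_zero (χ : D → ZMod 2) (h : F) : M.Ch χ h h 0 0 :=
  ⟨0, fun _ => rfl, fun g => by simp [CharTwo.add_self_eq_zero], by simp, by simp⟩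

omit [DecidableEq V] in
lemma ch_toggle (χ : D → ZMod 2) (hχ : ∀ d, χ (M.α d) = χ d) (h : F) (d : D) (ε : ZMod 2) (n : ℕ)
    (H : M.Ch χ h (M.fc d) ε n) :
    ∃ n', n' ≤ n + 1 ∧ (n' : ZMod 2) = n + 1 ∧ M.Ch χ h (M.fc (M.α d)) (ε + χ d) n' := by
  obtain ⟨ω, h1, h2, h3, h4⟩ := H
  let τ : D → ZMod 2 := fun x => (if x = d then 1 else 0) + if x = M.α d then 1 else 0
  have hτ : ∀ g : D → ZMod 2, (∀ x, g (M.α x) = g x) →
      ∑ x with M.o x = true, τ x * g x = g d := by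
    intro g hg
    simp only [τ, add_mul, sum_add_distrib, ite_mul, one_mul, zero_mul, sum_ite_eq', mem_filter,
      mem_univ, true_and, M.oα, hg]
    cases M.o d <;> simp
  refine ⟨#{x | M.o x = true ∧ (ω x + τ x) ≠ 0}, ?_, ?_, fun x => ω x + τ x, ?_, ?_, ?_, rfl⟩
  · rw [← h4]
    refine (card_le_card (t := insert (if M.o d = true then d else M.α d)
      (univ.filter fun x => M.o x = true ∧ ω x ≠ 0)) ?_).trans (card_insert_le _ _)
    intro x hx
    simp only [mem_filter, mem_univ, true_and, mem_insert] at hx ⊢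
    by_cases e1 : x = d
    · left
      rw [← e1, if_pos hx.1]
    by_cases e2 : x = M.α d
    · left
      have : ¬ M.o d = true := by
        have := hx.1
        rw [e2, M.oα] at this
        simpa using this
      rw [if_neg this, e2]
    · right
      refine ⟨hx.1, ?_⟩
      simpa [τ, e1, e2] using hx.2
  · rw [M.wt_cast (fun x => ω x + τ x), ← h4, M.wt_cast, sum_add_distrib]
    have := hτ (fun _ => 1) (fun _ => rfl)
    simp only [mul_one] at this
    rw [this]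
  · intro x
    have e1 : M.α x = d ↔ x = M.α d := ⟨fun e => by rw [← e, M.αα], fun e => by rw [e, M.αα]⟩
    simp only [h1, τ, e1, EmbeddingLike.apply_eq_iff_eq]
    ring
  · intro g
    rw [sum_add_distrib, h2]
    simp only [τ, sum_add_distrib, sum_ite_eq', mem_filter, mem_univ, true_and]
    rw [add_assoc, ← add_assoc (if M.fc d = g then 1 else 0), CharTwo.add_self_eq_zero, zero_add]
  · simp only [add_mul, sum_add_distrib]
    rw [h3, hτ χ hχ]

variable {r : ℕ}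

lemma ch_pair (deg : ∀ v, #{d | M.vtx d = v} = r)
    (hcut : ∀ X : Finset V, Odd #X → r ≤ #{d | M.vtx d ∈ X ∧ M.vtx (M.α d) ∉ X})
    (χ : D → ZMod 2) (hχ : ∀ d, χ (M.α d) = χ d) (hχ1 : ∀ v, ∑ d with M.vtx d = v, χ d = 1)
    (h f : F) (ε ε' : ZMod 2) (n n' : ℕ) (H : M.Ch χ h f ε n) (H' : M.Ch χ h f ε' n') :
    ((n : ZMod 2) + n' = r * (ε + ε')) ∧ (ε + ε' = 1 → r ≤ n + n') := by
  obtain ⟨ω, h1, h2, h3, h4⟩ := H
  obtain ⟨ω', h1', h2', h3', h4'⟩ := H'
  obtain ⟨q, hq⟩ := M.dual.face_pot (fun x => ω x + ω' x)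
    (fun x => by
      change ω (M.α x) + ω' (M.α x) = _
      rw [h1, h1', CharTwo.neg_eq])
    (fun g => by
      change ∑ x with M.fc x = g, (ω x + ω' x) = 0
      rw [sum_add_distrib, h2, h2', CharTwo.add_self_eq_zero])
  have hq' : ∀ x, M.cob q x = ω x + ω' x := by
    intro x
    rw [← hq x, CharTwo.sub_eq_add, add_comm]
    rfl
  have e1 : ε + ε' = ∑ v, q v := by
    have := M.cob_weight q χ hχ 1 hχ1
    simp only [hq', add_mul, sum_add_distrib, one_mul] at this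
    rw [← h3, ← h3', this]
  constructor
  · have := M.cob_weight q (fun _ => 1) (fun _ => rfl) r (fun v => by simp [deg])
    simp only [hq', mul_one, sum_add_distrib] at this
    rw [← h4, ← h4', M.wt_cast, M.wt_cast, this, e1]
  · intro hε
    have h01 : ∀ y : ZMod 2, y = 0 ∨ y = 1 := by decide
    have hX : Odd #{v | q v = 1} := by
      rw [← ZMod.natCast_eq_one_iff_odd, card_filter]
      push_cast
      refine Eq.trans ?_ (e1.symm.trans hε)
      refine sum_congr rfl fun v _ => ?_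
      rcases h01 (q v) with e | e <;> simp [e]
    refine (hcut _ hX).trans ?_
    rw [← h4, ← h4', card_filter, M.sum_o, card_filter, card_filter, ← sum_add_distrib, sum_filter]
    refine sum_le_sum fun x _ => ?_
    have := hq' x
    simp only [cob] at this
    simp only [mem_filter, mem_univ, true_and, M.αα]
    by_cases e0 : M.o x = true
    · rcases h01 (q (M.vtx x)) with e1 | e1 <;> rcases h01 (q (M.vtx (M.α x))) with e2 | e2 <;>
        rcases h01 (ω x) with e3 | e3 <;> rcases h01 (ω' x) with e4 | e4 <;>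
        simp [e0, e1, e2, e3, e4] at this ⊢
    · simp [e0]

lemma ch_exists (χ : D → ZMod 2) (hχ : ∀ d, χ (M.α d) = χ d)
    (hχ1 : ∀ v, ∑ d with M.vtx d = v, χ d = 1) (h f : F) (ε : ZMod 2) :
    ∃ n, M.Ch χ h f ε n := by
  obtain ⟨d0, rfl⟩ := M.fsurj h
  obtain ⟨d, rfl⟩ := M.fsurj f
  have hα : ∀ x, (∀ ε, ∃ n, M.Ch χ (M.fc d0) (M.fc x) ε n) →
      ∀ ε, ∃ n, M.Ch χ (M.fc d0) (M.fc (M.α x)) ε n := by
    intro x hx ε
    obtain ⟨n, hn⟩ := hx (ε + χ x)
    obtain ⟨n', -, -, hn'⟩ := M.ch_toggle χ hχ _ x _ n hn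
    rw [add_assoc, CharTwo.add_self_eq_zero, add_zero] at hn'
    exact ⟨n', hn'⟩
  have hα' : ∀ x, (∀ ε, ∃ n, M.Ch χ (M.fc d0) (M.fc (M.α x)) ε n) ↔
      ∀ ε, ∃ n, M.Ch χ (M.fc d0) (M.fc x) ε n :=
    fun x => ⟨fun hx => by simpa only [M.αα] using hα _ hx, hα x⟩
  refine M.conn {x | ∀ ε, ∃ n, M.Ch χ (M.fc d0) (M.fc x) ε n}
    (fun x => by simp only [Set.mem_ofPred_eq, M.fσ, hα']) hα' d0 d ?_ ε
  intro ε
  refine ⟨_, M.cob (Pi.single (M.vtx d0) ε), fun x => ?_, fun g => ?_, ?_, rfl⟩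
  · simp only [cob, M.αα, add_comm]
  · rw [M.cob_closed, CharTwo.add_self_eq_zero]
  · rw [M.cob_weight _ χ hχ 1 hχ1]
    simp

/-- The latitude function with pole `h`. -/
theorem exists_lat (hr : 1 ≤ r) (deg : ∀ v, #{d | M.vtx d = v} = r)
    (hcut : ∀ X : Finset V, Odd #X → r ≤ #{d | M.vtx d ∈ X ∧ M.vtx (M.α d) ∉ X})
    (χ : D → ZMod 2) (hχ : ∀ d, χ (M.α d) = χ d) (hχ1 : ∀ v, ∑ d with M.vtx d = v, χ d = 1)
    (h : F) : ∃ a : F → ZMod 2 → ℤ,
      (∀ d ε, a (M.fc (M.α d)) (ε + χ d) = a (M.fc d) ε + 1 ∨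
        a (M.fc (M.α d)) (ε + χ d) = a (M.fc d) ε - 1) ∧
      (∀ f ε, a f (ε + 1) = r - a f ε) ∧ a h 0 = 0 ∧ ∀ f ε, 0 ≤ a f ε := by
  let δ : F → ZMod 2 → ℕ := fun f ε => sInf {n | M.Ch χ h f ε n}
  have hδ : ∀ f ε, M.Ch χ h f ε (δ f ε) := fun f ε =>
    Nat.sInf_mem (s := {n | M.Ch χ h f ε n}) (M.ch_exists χ hχ hχ1 h f ε)
  have hle : ∀ f ε n, M.Ch χ h f ε n → δ f ε ≤ n := fun f ε n hn => Nat.sInf_le hn
  have hmod : ∀ x y : ℕ, (x : ZMod 2) = y → x % 2 = y % 2 := fun x y e =>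
    (ZMod.natCast_eq_natCast_iff' x y 2).mp e
  have step1 : ∀ d ε, δ (M.fc (M.α d)) (ε + χ d) ≤ δ (M.fc d) ε + 1 ∧
      (δ (M.fc (M.α d)) (ε + χ d)) % 2 = (δ (M.fc d) ε + 1) % 2 := by
    intro d ε
    obtain ⟨n', e1, e2, e3⟩ := M.ch_toggle χ hχ h d ε _ (hδ _ ε)
    refine ⟨(hle _ _ _ e3).trans e1, hmod _ _ ?_⟩
    have := (M.ch_pair deg hcut χ hχ hχ1 h _ _ _ _ _ e3 (hδ _ (ε + χ d))).1
    rw [CharTwo.add_self_eq_zero, mul_zero, CharTwo.add_eq_zero] at this
    rw [← this, e2]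
    push_cast
    rfl
  have step : ∀ d ε, (δ (M.fc (M.α d)) (ε + χ d) : ℤ) = δ (M.fc d) ε + 1 ∨
      (δ (M.fc (M.α d)) (ε + χ d) : ℤ) = δ (M.fc d) ε - 1 := by
    intro d ε
    have e1 := step1 d ε
    have e2 := (step1 (M.α d) (ε + χ d)).1
    rw [M.αα, hχ, add_assoc, CharTwo.add_self_eq_zero, add_zero] at e2
    omega
  have pair : ∀ f ε, (r : ℤ) ≤ δ f ε + δ f (ε + 1) ∧
      ((δ f ε : ℤ) + δ f (ε + 1) - r) % 2 = 0 := by
    intro f ε
    obtain ⟨e1, e2⟩ := M.ch_pair deg hcut χ hχ hχ1 h f _ _ _ _ (hδ f ε) (hδ f (ε + 1))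
    rw [← add_assoc, CharTwo.add_self_eq_zero, zero_add] at e1 e2
    have e3 := e2 rfl
    have e4 := hmod (δ f ε + δ f (ε + 1)) r (by push_cast; rw [e1, mul_one])
    omega
  have hr' : (1 : ℤ) ≤ r := by exact_mod_cast hr
  refine ⟨fun f ε => lat r (δ f ε) (δ f (ε + 1)) (decide (ε = 0)), fun d ε => ?_, fun f ε => ?_,
    ?_, fun f ε => lat_nonneg _ _ _ _ hr' (Int.natCast_nonneg _)⟩
  · refine lat_step _ _ _ _ _ _ _ (pair _ ε).2 (step d ε) ?_
    have := step d (ε + 1)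
    rwa [add_right_comm] at this
  · have e1 : decide (ε + 1 = 0) = !decide (ε = 0) := by
      revert ε
      decide
    simp only
    rw [add_assoc, CharTwo.add_self_eq_zero, add_zero, e1]
    exact lat_swap _ _ _ _ (pair f ε).1 (pair f ε).2
  · have : δ h 0 = 0 := Nat.le_zero.mp (hle _ _ _ (M.ch_zero χ h))
    simp only [this, Nat.cast_zero]
    exact lat_zero _ _ _ hr'

end SMap

end Pool.Agent.Lib.MP_fe5cb4_co
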