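import Pool.Agent.Lib.MP_fe5cb4_co.Label

/-!
From corner labels to a proper edge colouring with `r` colours.
-/

set_option autoImplicit false

namespace Pool.Agent.Lib.MP_fe5cb4_co

open Finset

lemma chain_par (r : ℕ) (e : ℕ → ℤ) (h0 : e 0 = 0)
    (h1 : ∀ i, 1 ≤ i → i < r → e i = 1 ∨ e i = -1) (i : ℕ) (hi : i < r) :
    Even (∑ k ∈ range i, e k + e i * (i + 1)) := by
  have key : ∀ j : ℕ, j < r → Even (∑ k ∈ range (j + 1), e k - j) := by
    intro j
    induction j with
    | zero => intro _; simp [h0]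
    | succ j ih =>
      intro hj
      obtain ⟨c, hc⟩ := ih (by omega)
      rw [sum_range_succ]
      push_cast
      rcases h1 (j + 1) (by omega) hj with h | h
      · exact ⟨c, by linarith⟩
      · exact ⟨c - 1, by linarith⟩
  rcases i with _ | i
  · simp [h0]
  · obtain ⟨c, hc⟩ := key i (by omega)
    push_cast
    rcases h1 (i + 1) (by omega) hi with h | h
    · exact ⟨c + i + 1, by rw [h]; linarith⟩
    · exact ⟨c - 1, by rw [h]; linarith⟩

lemma chain_sep (r : ℕ) (e : ℕ → ℤ) (h0 : e 0 = 0)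
    (h1 : ∀ i, 1 ≤ i → i < r → e i = 1 ∨ e i = -1) (i j : ℕ) (hij : i < j) (hj : j < r) :
    ¬ (2 * r : ℤ) ∣ (∑ k ∈ range i, e k + e i * (i + 1)) - (∑ k ∈ range j, e k + e j * (j + 1)) := by
  have key : ∀ m : ℕ, i + m < r →
      -(i + m : ℤ) ≤ (∑ k ∈ range i, e k + e i * (i + 1)) - ∑ k ∈ range (i + m + 1), e k ∧
      (∑ k ∈ range i, e k + e i * (i + 1)) - ∑ k ∈ range (i + m + 1), e k ≤ i + m := by
    intro m
    induction m with
    | zero =>
      intro hi
      rw [add_zero, sum_range_succ]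
      rcases Nat.eq_zero_or_pos i with h | h
      · subst h
        simp [h0]
      · have : (0 : ℤ) ≤ i := by positivity
        rcases h1 i h (by omega) with h | h <;> rw [h] <;> push_cast <;> constructor <;> linarith
    | succ m ih =>
      intro hm
      obtain ⟨a1, a2⟩ := ih (by omega)
      rw [← add_assoc, sum_range_succ _ (i + m + 1)]
      push_cast
      rcases h1 (i + m + 1) (by omega) (by omega) with h | h <;> rw [h] <;> constructor <;>
        linarith
  obtain ⟨m, rfl⟩ : ∃ m, j = i + m + 1 := ⟨j - i - 1, by omega⟩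
  obtain ⟨a1, a2⟩ := key m (by omega)
  have hr : ((i + m + 1 : ℕ) : ℤ) < r := by exact_mod_cast hj
  push_cast at hr ⊢
  have hi0 : (0 : ℤ) ≤ i := by positivity
  have hm0 : (0 : ℤ) ≤ m := by positivity
  intro hdvd
  have hz := Int.eq_zero_of_abs_lt_dvd hdvd (by
    rw [abs_lt]
    rcases h1 (i + m + 1) (by omega) hj with h | h <;> rw [h] <;> constructor <;> linarith)
  rcases h1 (i + m + 1) (by omega) hj with h | h <;> rw [h] at hz <;> linarith

namespace SMap

variable {D V F : Type} [Fintype D] [Fintype V] [Fintype F] [DecidableEq V] [DecidableEq F]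
  (M : SMap D V F) {r : ℕ} [NeZero r] (deg : ∀ v, #{d | M.vtx d = v} = r)
  (hfc : ∀ x y, M.fc x = M.fc y → (M.σ * M.α).SameCycle x y)
  (a : D → ZMod r) (ha1 : ∀ d, a (M.σ d) = a d + 1) (ha2 : ∀ d, a (M.σ (M.α d)) = -a d)

omit [DecidableEq V] [DecidableEq F] in
lemma vtx_pow (k : ℕ) (d : D) : M.vtx ((M.σ ^ k) d) = M.vtx d := by
  induction k with
  | zero => rfl
  | succ k ih => rw [pow_succ', Equiv.Perm.mul_apply, M.vσ, ih]

omit [DecidableEq V] [DecidableEq F] [NeZero r] in
include ha1 in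
lemma a_pow (k : ℕ) (d : D) : a ((M.σ ^ k) d) = a d + k := by
  induction k with
  | zero => simp
  | succ k ih => rw [pow_succ', Equiv.Perm.mul_apply, ha1, ih]; push_cast; ring

omit [DecidableEq V] [DecidableEq F] in
include ha1 in
lemma a_surj (v : V) (z : ZMod r) : ∃ d, M.vtx d = v ∧ a d = z := by
  obtain ⟨d, rfl⟩ := M.vsurj v
  refine ⟨(M.σ ^ (z - a d).val) d, M.vtx_pow _ _, ?_⟩
  rw [M.a_pow a ha1, ZMod.natCast_zmod_val]
  ring

omit [DecidableEq F] in
include deg ha1 in
lemma a_inj (d d' : D) (hv : M.vtx d = M.vtx d') (h : a d = a d') : d = d' := by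
  classical
  have := Finset.inj_on_of_surj_on_of_card_le (s := {x | M.vtx x = M.vtx d})
    (t := (univ : Finset (ZMod r))) (fun x _ => a x) (fun _ _ => mem_univ _)
    (fun z _ => by
      obtain ⟨x, hx, hx'⟩ := M.a_surj a ha1 (M.vtx d) z
      exact ⟨x, by simpa using hx, hx'⟩)
    (by rw [deg, card_univ, ZMod.card])
  exact this (by simp) (by simp [hv]) h

omit [DecidableEq F] in
include deg ha1 in
lemma card_a (v : V) (z : ZMod r) : #{d | M.vtx d = v ∧ a d = z} = 1 := by
  obtain ⟨d, h1, h2⟩ := M.a_surj a ha1 v z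
  rw [card_eq_one]
  refine ⟨d, ?_⟩
  ext x
  simp only [mem_filter, mem_univ, true_and, mem_singleton]
  constructor
  · rintro ⟨h3, h4⟩
    exact M.a_inj deg a ha1 _ _ (h3.trans h1.symm) (h4.trans h2.symm)
  · rintro rfl
    exact ⟨h1, h2⟩

omit [DecidableEq V] [DecidableEq F] [NeZero r] in
include ha1 ha2 in
lemma a_α (d : D) : a (M.α d) = -1 - a d := by
  have := ha2 d
  rw [ha1] at this
  linear_combination this

omit [DecidableEq V] [DecidableEq F] [NeZero r] in
include hfc ha2 in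
lemma wild_face (d d' : D) (h : a d = 0) (hf : M.fc d = M.fc d') : a d' = 0 := by
  obtain ⟨n, rfl⟩ := (hfc d d' hf).exists_nat_pow_eq
  clear hf
  induction n with
  | zero => simpa using h
  | succ n ih => rw [pow_succ', Equiv.Perm.mul_apply, Equiv.Perm.mul_apply, ha2, ih, neg_zero]

variable (w : V → D) (hw1 : ∀ v, M.vtx (w v) = v) (hw2 : ∀ v, a (w v) = 0)

omit [DecidableEq F] in
include deg ha1 hw1 hw2 in
lemma w_vtx (d : D) (h : a d = 0) : w (M.vtx d) = d :=
  M.a_inj deg a ha1 _ _ (hw1 _) (by rw [hw2, h])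

include deg ha1 hw1 hw2 in
lemma sum_wf {A : Type} [AddCommMonoid A] (f : F) (h : V → A) :
    ∑ v with M.fc (w v) = f, h v = ∑ d with M.fc d = f ∧ a d = 0, h (M.vtx d) := by
  refine sum_bij (fun v _ => w v) ?_ ?_ ?_ ?_
  · intro v hv
    simpa [hw2] using hv
  · intro v _ v' _ h
    rw [← hw1 v, h, hw1]
  · intro d hd
    simp only [mem_filter, mem_univ, true_and] at hd
    have := M.w_vtx deg a ha1 w hw1 hw2 d hd.2
    exact ⟨M.vtx d, by simp [this, hd.1], this⟩
  · intro v _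
    rw [hw1]

include deg hfc ha1 ha2 hw1 hw2 in
lemma card_wf (f : F) :
    #{v | M.fc (w v) = f} = 0 ∧ (∀ d, M.fc d = f → a d ≠ 0) ∨
      #{v | M.fc (w v) = f} = M.flen f ∧ ∀ d, M.fc d = f → a d = 0 := by
  have h1 := M.sum_wf deg a ha1 w hw1 hw2 f (fun _ => (1 : ℕ))
  simp only [sum_const, smul_eq_mul, mul_one] at h1
  rw [h1]
  by_cases h : ∃ d, M.fc d = f ∧ a d = 0
  · right
    obtain ⟨d, hd, hd'⟩ := h
    have h2 : ∀ x, M.fc x = f → a x = 0 := fun x hx =>
      M.wild_face hfc a ha2 d x hd' (hd.trans hx.symm)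
    refine ⟨?_, h2⟩
    unfold flen
    congr 1
    ext x
    simp only [mem_filter, mem_univ, true_and]
    exact ⟨fun h => h.1, fun h => ⟨h, h2 x h⟩⟩
  · left
    push Not at h
    refine ⟨?_, h⟩
    rw [card_eq_zero, filter_eq_empty_iff]
    rintro x _ ⟨h1, h2⟩
    exact h x h1 h2

omit [DecidableEq F] in
include deg ha1 ha2 hw1 hw2 in
lemma wf_α (d : D) (h : a d = 0 ∨ a d = -1) :
    M.fc (w (M.vtx (M.α d))) = M.fc (w (M.vtx d)) := by
  have key : ∀ x, a x = 0 → M.fc (w (M.vtx (M.α x))) = M.fc (w (M.vtx x)) := by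
    intro x hx
    rw [M.w_vtx deg a ha1 w hw1 hw2 x hx, ← M.vσ (M.α x),
      M.w_vtx deg a ha1 w hw1 hw2 _ (by rw [ha2, hx, neg_zero]), M.fφ]
  rcases h with h | h
  · exact key d h
  · have := key (M.α d) (by rw [M.a_α a ha1 ha2, h, sub_self])
    rw [M.αα] at this
    exact this.symm

omit [DecidableEq V] in
lemma card_wf_mem (S : Finset F) :
    #{v | M.fc (w v) ∈ S} = ∑ f ∈ S, #{v | M.fc (w v) = f} := by
  rw [card_eq_sum_card_fiberwise (f := fun v => M.fc (w v)) (t := S)
    (fun v hv => by simpa using hv)]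
  refine sum_congr rfl fun f hf => ?_
  rw [filter_filter]
  congr 1
  ext v
  simp only [mem_filter, mem_univ, true_and]
  exact ⟨fun h => h.2, fun h => ⟨h ▸ hf, h⟩⟩

end SMap

end Pool.Agent.Lib.MP_fe5cb4_co
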