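import Mathlib

/-!
Flows with prescribed net out-flow in an abelian group, and exactness of the cochain complex of a
map of Euler characteristic two with coefficients in a finite abelian group.
-/

set_option autoImplicit false

namespace Pool.Agent.Lib.MP_fe5cb4_co

open Finset

section
variable {V E A : Type} [Fintype E] [DecidableEq V] [AddCommGroup A]

/-- net out-flow of an edge function -/
def dv (s t : E → V) : (E → A) →+ (V → A) where
  toFun z v := ∑ e with s e = v, z e - ∑ e with t e = v, z e
  map_zero' := by funext v; simp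
  map_add' x y := by
    funext v
    simp only [Pi.add_apply, sum_add_distrib]
    abel

lemma dv_apply (s t : E → V) (z : E → A) (v : V) :
    dv s t z v = ∑ e with s e = v, z e - ∑ e with t e = v, z e := rfl

lemma dv_single [DecidableEq E] (s t : E → V) (e : E) (x : A) :
    dv s t (Pi.single e x) = Pi.single (s e) x - Pi.single (t e) x := by
  funext v
  rw [dv_apply, Finset.sum_pi_single', Finset.sum_pi_single']
  simp only [Pi.sub_apply, mem_filter, mem_univ, true_and, Pi.single_apply, eq_comm]

/-- A demand function that sums to zero on every class of a partition into connected pieces is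
the net out-flow of some edge function. -/
theorem exists_flow [Fintype V] {C : Type} [DecidableEq C] (s t : E → V) (cls : V → C)
    (hc : ∀ S : Set V, (∀ e, s e ∈ S ↔ t e ∈ S) → ∀ u v, cls u = cls v → u ∈ S → v ∈ S)
    (b : V → A) (hb : ∀ c, ∑ v with cls v = c, b v = 0) : ∃ z : E → A, dv s t z = b := by
  classical
  rcases isEmpty_or_nonempty V with hV | hV
  · exact ⟨0, funext fun v => isEmptyElim v⟩
  let ρ : C → V := Function.invFun cls
  have hρ : ∀ v, cls (ρ (cls v)) = cls v := fun v => Function.invFun_eq ⟨v, rfl⟩
  have key : ∀ u v, cls u = cls v → ∀ x : A,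
      (Pi.single v x - Pi.single u x : V → A) ∈ (dv (A := A) s t).range := by
    intro u v huv
    refine hc {v | ∀ x : A, (Pi.single v x - Pi.single u x : V → A) ∈ (dv (A := A) s t).range}
      ?_ u v huv ?_
    · intro e
      have h0 : ∀ x : A, (Pi.single (s e) x - Pi.single (t e) x : V → A) ∈
          (dv (A := A) s t).range := fun x => ⟨Pi.single e x, dv_single s t e x⟩
      constructor
      · intro h x
        have := sub_mem (h x) (h0 x)
        convert this using 1
        abel
      · intro h x
        have := add_mem (h x) (h0 x)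
        convert this using 1
        abel
    · intro x
      simp
  have h1 : ∑ v, (Pi.single v (b v) - Pi.single (ρ (cls v)) (b v) : V → A) ∈
      (dv (A := A) s t).range :=
    sum_mem fun v _ => key _ _ (hρ v) _
  have h2 : ∑ v, (Pi.single (ρ (cls v)) (b v) : V → A) = 0 := by
    funext w
    simp only [Finset.sum_apply, Pi.single_apply, Pi.zero_apply]
    rw [← sum_filter]
    by_cases hw : ρ (cls w) = w
    · rw [← hb (cls w)]
      refine sum_congr ?_ fun _ _ => rfl
      ext v
      simp only [mem_filter, mem_univ, true_and]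
      constructor
      · intro h
        rw [h, hρ]
      · intro h
        rw [h, hw]
    · refine sum_eq_zero fun v hv => ?_
      exfalso
      simp only [mem_filter, mem_univ, true_and] at hv
      apply hw
      have : cls w = cls v := by rw [hv, hρ]
      rw [this, ← hv]
  rw [sum_sub_distrib, h2, sub_zero, Finset.univ_sum_single] at h1
  exact h1

end

/-- Exactness on the sphere: a closed edge function is the difference of a face potential. -/
theorem exact_potential {V E F A : Type} [Fintype V] [Fintype E] [Fintype F] [DecidableEq V]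
    [AddCommGroup A] [Finite A] (s t : E → V) (L R : E → F)
    (hV : ∀ S : Set V, (∀ e, s e ∈ S ↔ t e ∈ S) → ∀ u v, u ∈ S → v ∈ S)
    (hF : ∀ S : Set F, (∀ e, L e ∈ S ↔ R e ∈ S) → ∀ u v, u ∈ S → v ∈ S)
    (hcomp : ∀ p : F → A, dv s t (fun e => p (R e) - p (L e)) = 0)
    (hcard : Fintype.card V + Fintype.card F = Fintype.card E + 2)
    (ω : E → A) (hω : dv s t ω = 0) : ∃ p : F → A, ∀ e, p (R e) - p (L e) = ω e := by
  classical
  rcases isEmpty_or_nonempty E with hE | ⟨⟨e0⟩⟩
  · exact ⟨0, fun e => isEmptyElim e⟩
  let δ : (F → A) →+ (E → A) :=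
    { toFun := fun p e => p (R e) - p (L e)
      map_zero' := by funext e; simp
      map_add' := by intro x y; funext e; simp only [Pi.add_apply]; abel }
  have hle : δ.range ≤ (dv (A := A) s t).ker := by
    rintro _ ⟨p, rfl⟩
    exact hcomp p
  have hA : 0 < Nat.card A := Nat.card_pos
  have c1 : Nat.card δ.ker * Nat.card δ.range = Nat.card A ^ Fintype.card F := by
    rw [← AddSubgroup.index_ker, AddSubgroup.card_mul_index, Nat.card_fun, Nat.card_eq_fintype_card (α := F)]
  have c2 : Nat.card (dv (A := A) s t).ker * Nat.card (dv (A := A) s t).range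
      = Nat.card A ^ Fintype.card E := by
    rw [← AddSubgroup.index_ker, AddSubgroup.card_mul_index, Nat.card_fun, Nat.card_eq_fintype_card (α := E)]
  have c3 : Nat.card δ.ker ≤ Nat.card A := by
    refine Nat.card_le_card_of_injective (fun p => p.1 (L e0)) ?_
    rintro ⟨p, hp⟩ ⟨q, hq⟩ h
    simp only at h
    have hp' : ∀ e, p (R e) - p (L e) = 0 := fun e => congrFun hp e
    have hq' : ∀ e, q (R e) - q (L e) = 0 := fun e => congrFun hq e
    apply Subtype.ext
    funext f
    refine hF {f | p f = q f} ?_ (L e0) f h
    intro e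
    simp only [Set.mem_ofPred_eq]
    rw [sub_eq_zero.mp (hp' e), sub_eq_zero.mp (hq' e)]
  have c4 : Nat.card A ^ Fintype.card V ≤ Nat.card (dv (A := A) s t).range * Nat.card A := by
    rw [← Nat.card_prod, ← Nat.card_eq_fintype_card (α := V), ← Nat.card_fun]
    refine Nat.card_le_card_of_surjective
      (fun y : (dv (A := A) s t).range × A => (y.1.1 + Pi.single (s e0) y.2 : V → A)) ?_
    intro b
    obtain ⟨z, hz⟩ := exists_flow (A := A) s t (fun _ => ()) (fun S hS u v _ => hV S hS u v)
      (b - Pi.single (s e0) (∑ v, b v)) (by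
        intro c
        simp [sum_sub_distrib])
    exact ⟨(⟨_, z, hz⟩, ∑ v, b v), by simp⟩
  have c5 : Nat.card (dv (A := A) s t).ker ≤ Nat.card δ.range := by
    have hpos : 0 < Nat.card (dv (A := A) s t).range := Nat.card_pos
    have h1 : Nat.card A ^ Fintype.card F ≤ Nat.card A * Nat.card δ.range := by
      rw [← c1]; exact Nat.mul_le_mul_right _ c3
    have h2 := Nat.mul_le_mul c4 h1
    rw [← pow_add, hcard, pow_add, ← c2] at h2
    have h3 : Nat.card (dv (A := A) s t).ker * (Nat.card (dv (A := A) s t).range * Nat.card A ^ 2)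
        ≤ Nat.card δ.range * (Nat.card (dv (A := A) s t).range * Nat.card A ^ 2) := by
      calc _ = Nat.card (dv (A := A) s t).ker * Nat.card (dv (A := A) s t).range
                * Nat.card A ^ 2 := by ring
        _ ≤ _ := h2
        _ = _ := by ring
    exact Nat.le_of_mul_le_mul_right h3 (by positivity)
  have heq := AddSubgroup.eq_of_le_of_card_ge hle c5
  have : ω ∈ δ.range := by rw [heq]; exact hω
  obtain ⟨p, hp⟩ := this
  exact ⟨p, fun e => congrFun hp e⟩

/-- Solving a difference equation along the cycles of a permutation. -/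
theorem exists_cyc {D A C : Type} [Fintype D] [DecidableEq C] [AddCommGroup A]
    (π : Equiv.Perm D) (cls : D → C) (hcls : ∀ x y, cls x = cls y → π.SameCycle x y)
    (y : D → A) (hy : ∀ c, ∑ d with cls d = c, y d = 0) :
    ∃ U : D → A, ∀ d, U (π d) = U d + y d := by
  classical
  have hc : ∀ S : Set D, (∀ e, e ∈ S ↔ π e ∈ S) → ∀ u v, cls u = cls v → u ∈ S → v ∈ S := by
    intro S hS u v huv hu
    obtain ⟨n, hn⟩ := (hcls u v huv).exists_nat_pow_eq
    rw [← hn]
    clear hn
    induction n with
    | zero => simpa using hu
    | succ n ih =>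
      rw [pow_succ', Equiv.Perm.mul_apply]
      exact (hS _).mp ih
  obtain ⟨z, hz⟩ := exists_flow (A := A) (fun d => d) (fun d => π d) cls hc y hy
  refine ⟨fun d => z (π⁻¹ d), fun d => ?_⟩
  have := congrFun hz d
  rw [dv_apply] at this
  have e1 : (univ.filter fun e => e = d) = {d} := by ext; simp
  have e2 : (univ.filter fun e => π e = d) = {π⁻¹ d} := by
    ext x
    simp only [mem_filter, mem_univ, true_and, mem_singleton]
    exact ⟨fun h => by rw [← h]; simp, fun h => by rw [h]; simp⟩
  rw [e1, e2, sum_singleton, sum_singleton] at this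
  simp only [Equiv.Perm.coe_inv, Equiv.symm_apply_apply] at this ⊢
  rw [← this]
  abel

end Pool.Agent.Lib.MP_fe5cb4_co
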