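import Pool.Agent.Lib.MP_fe5cb4_co.SMap

/-!
Corner labels of an `r`-regular spherical map with no or two odd faces: they increase by one
around every vertex and change sign along every face.
-/

set_option autoImplicit false

namespace Pool.Agent.Lib.MP_fe5cb4_co

open Finset

lemma sgn_flip {A : Type} [Ring A] (z : ZMod 2) :
    (if z + 1 = 0 then (1 : A) else -1) = -(if z = 0 then 1 else -1) := by
  have h : z = 0 ∨ z = 1 := by revert z; decide
  rcases h with rfl | rfl
  · rw [if_neg (by decide), if_pos rfl]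
  · rw [if_pos (by decide), if_neg (by decide), neg_neg]

lemma dec_flip (ε : ZMod 2) : decide (ε + 1 = 0) = !decide (ε = 0) := by
  revert ε
  decide

namespace SMap

variable {D V F : Type} [Fintype D] [Fintype V] [Fintype F] [DecidableEq V] [DecidableEq F]
  (M : SMap D V F)

/-- the length of a face -/
def flen (f : F) : ℕ := #{d | M.fc d = f}

omit [DecidableEq V] in
lemma even_of_alt (g : D → ZMod 2) (f : F)
    (hg : ∀ d, M.fc d = f → g (M.σ (M.α d)) = g d + 1) : Even (M.flen f) := by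
  have h1 := sum_perm (M.σ * M.α) (fun d => M.fc d = f)
    (fun d => by rw [Equiv.Perm.mul_apply, M.fφ]) g
  have h2 : ∑ d with M.fc d = f, g ((M.σ * M.α) d) = ∑ d with M.fc d = f, (g d + 1) :=
    sum_congr rfl fun d hd => hg d (by simpa using hd)
  rw [h2, sum_add_distrib, add_eq_left, sum_const, nsmul_eq_mul, mul_one] at h1
  exact (ZMod.natCast_eq_zero_iff_even).mp h1

/-- Labels when every face is even. -/
theorem label_even (r : ℕ) [NeZero r] (deg : ∀ v, #{d | M.vtx d = v} = r)
    (hev : ∀ f, Even (M.flen f)) :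
    ∃ a : D → ZMod r, (∀ d, a (M.σ d) = a d + 1) ∧ ∀ d, a (M.σ (M.α d)) = -a d := by
  obtain ⟨q, hq⟩ := M.dual.face_pot (fun _ => (1 : ZMod 2)) (fun _ => by decide) (by
    intro f
    rw [sum_const, nsmul_eq_mul, mul_one]
    exact (ZMod.natCast_eq_zero_iff_even).mpr (hev f))
  have hq' : ∀ d, q (M.vtx (M.α d)) = q (M.vtx d) + 1 := fun d => by
    have := hq d
    rw [sub_eq_iff_eq_add] at this
    rw [add_comm]
    exact this
  let ω : D → ZMod r := fun d => if q (M.vtx d) = 0 then 1 else -1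
  have hω : ∀ d, ω (M.α d) = -ω d := by
    intro d
    simp only [ω, hq']
    exact sgn_flip _
  have hω2 : ∀ d, ω d * ω d = 1 := by
    intro d
    simp only [ω]
    split_ifs <;> simp
  have hωσ : ∀ d, ω (M.σ d) = ω d := fun d => by simp only [ω, M.vσ]
  obtain ⟨p, hp⟩ := M.face_pot ω hω (by
    intro v
    have : ∑ d with M.vtx d = v, ω d = ∑ d with M.vtx d = v, (if q v = 0 then 1 else -1) :=
      sum_congr rfl fun d hd => by
        have : M.vtx d = v := by simpa using hd
        simp only [ω, this]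
    rw [this, sum_const, deg, nsmul_eq_mul, ZMod.natCast_self, zero_mul])
  refine ⟨fun d => ω d * p (M.fc d), fun d => ?_, fun d => ?_⟩
  · simp only [hωσ, M.fσ]
    rw [sub_eq_iff_eq_add.mp (hp d), mul_add, hω2, add_comm]
  · simp only [hωσ, M.fφ, hω]
    ring

/-- The bipartite double cover of a map with two odd faces. -/
def cover (χ : D → ZMod 2) (hχ : ∀ d, Even (M.flen (M.fc d)) → χ (M.σ (M.α d)) = χ d + 1)
    (hodd : Fintype.card {f // ¬ Even (M.flen f)} = 2) :
    SMap (D × ZMod 2) (V × ZMod 2)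
      (({f // Even (M.flen f)} × ZMod 2) ⊕ {f // ¬ Even (M.flen f)}) where
  σ := M.σ.prodCongr (Equiv.refl _)
  α := M.α.prodCongr (Equiv.addRight 1)
  o := fun x => decide (x.2 = 0)
  vtx := fun x => (M.vtx x.1, x.2)
  fc := fun x => if h : Even (M.flen (M.fc x.1)) then Sum.inl (⟨M.fc x.1, h⟩, x.2 + χ x.1)
    else Sum.inr ⟨M.fc x.1, h⟩
  αα := by
    rintro ⟨d, ε⟩
    have : ε + 1 + 1 = ε := by revert ε; decide
    simp [M.αα, this]
  oα := by
    rintro ⟨d, ε⟩
    exact dec_flip ε
  vσ := by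
    rintro ⟨d, ε⟩
    simp [M.vσ]
  fσ := by
    rintro ⟨d, ε⟩
    simp only [Equiv.prodCongr_apply, Equiv.coe_refl, Prod.map, id, Equiv.coe_addRight, M.fσ]
    by_cases h : Even (M.flen (M.fc (M.α d)))
    · have := hχ _ h
      rw [M.αα] at this
      rw [dif_pos h, dif_pos h, this]
      congr 2
      ring
    · rw [dif_neg h, dif_neg h]
  vsurj := by
    rintro ⟨v, ε⟩
    obtain ⟨d, rfl⟩ := M.vsurj v
    exact ⟨(d, ε), rfl⟩
  fsurj := by
    rintro (⟨⟨f, hf⟩, ε⟩ | ⟨f, hf⟩)
    · obtain ⟨d, rfl⟩ := M.fsurj f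
      refine ⟨(d, ε - χ d), ?_⟩
      simp [hf]
    · obtain ⟨d, rfl⟩ := M.fsurj f
      refine ⟨(d, 0), ?_⟩
      simp [hf]
  conn := by
    classical
    intro S h1 h2
    have h1' : ∀ d ε, (M.σ d, ε) ∈ S ↔ (d, ε) ∈ S := fun d ε => h1 (d, ε)
    have h2' : ∀ d ε, (M.α d, ε + 1) ∈ S ↔ (d, ε) ∈ S := fun d ε => h2 (d, ε)
    have h20 : ∀ d, (M.α d, (1 : ZMod 2)) ∈ S ↔ (d, 0) ∈ S := fun d => h2' d 0
    have h21 : ∀ d, (M.α d, (0 : ZMod 2)) ∈ S ↔ (d, 1) ∈ S := fun d => h2' d 1
    have hT : ∀ d, ((d, (0 : ZMod 2)) ∈ S ↔ (d, (1 : ZMod 2)) ∈ S) := by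
      by_contra hne
      push Not at hne
      obtain ⟨d0, hd0⟩ := hne
      have hall : ∀ d, ¬ ((d, (0 : ZMod 2)) ∈ S ↔ (d, (1 : ZMod 2)) ∈ S) := by
        intro d
        refine M.conn {d | ¬ ((d, (0 : ZMod 2)) ∈ S ↔ (d, (1 : ZMod 2)) ∈ S)}
          (fun x => by simp only [Set.mem_ofPred_eq, h1'])
          (fun x => by simp only [Set.mem_ofPred_eq, h20, h21]; tauto) d0 d ?_
        simp only [Set.mem_ofPred_eq]
        tauto
      have : Nonempty {f // ¬ Even (M.flen f)} := Fintype.card_pos_iff.mp (by omega)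
      obtain ⟨f, hf⟩ := this
      refine hf (M.even_of_alt (fun d => if (d, (0 : ZMod 2)) ∈ S then 0 else 1) f fun d _ => ?_)
      simp only [h1', h21]
      have := hall d
      by_cases h : (d, (0 : ZMod 2)) ∈ S
      · have h' : (d, (1 : ZMod 2)) ∉ S := by tauto
        simp [h, h']
      · have h' : (d, (1 : ZMod 2)) ∈ S := by tauto
        simp only [h, h', if_true, if_false]
        decide
    have hT' : ∀ d ε, (d, ε) ∈ S ↔ (d, (0 : ZMod 2)) ∈ S := by
      intro d ε
      fin_cases ε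
      · rfl
      · exact (hT d).symm
    rintro ⟨d, ε⟩ ⟨d', ε'⟩ h
    rw [hT'] at h ⊢
    exact M.conn {d | (d, (0 : ZMod 2)) ∈ S} (fun x => h1' x 0)
      (fun x => by simp only [Set.mem_ofPred_eq]; rw [h21, hT]) d d' h
  euler := by
    have h1 := M.euler
    have h2 := Fintype.card_subtype_compl (fun f => Even (M.flen f))
    have h3 := Fintype.card_subtype_le (fun f => Even (M.flen f))
    simp only [Fintype.card_prod, Fintype.card_sum, ZMod.card]
    omega

/-- Labels when exactly two faces are odd; they vanish on a chosen odd face. -/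
theorem label_two (r : ℕ) [NeZero r] (deg : ∀ v, #{d | M.vtx d = v} = r)
    (hfc : ∀ x y, M.fc x = M.fc y → (M.σ * M.α).SameCycle x y)
    (hodd : Fintype.card {f // ¬ Even (M.flen f)} = 2) (f1 : F) (hf1 : ¬ Even (M.flen f1)) :
    ∃ a : D → ZMod r, (∀ d, a (M.σ d) = a d + 1) ∧ (∀ d, a (M.σ (M.α d)) = -a d) ∧
      ∀ d, M.fc d = f1 → a d = 0 := by
  obtain ⟨χ, hχ⟩ := exists_cyc (A := ZMod 2) (M.σ * M.α) M.fc hfc
    (fun d => if Even (M.flen (M.fc d)) then 1 else 0) (by
      intro f
      have : ∑ d with M.fc d = f, (if Even (M.flen (M.fc d)) then (1 : ZMod 2) else 0)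
          = ∑ d with M.fc d = f, (if Even (M.flen f) then (1 : ZMod 2) else 0) :=
        sum_congr rfl fun d hd => by
          have : M.fc d = f := by simpa using hd
          rw [this]
      rw [this, sum_const, nsmul_eq_mul]
      split_ifs with h
      · rw [mul_one]
        exact (ZMod.natCast_eq_zero_iff_even).mpr h
      · rw [mul_zero])
  have hχ' : ∀ d, Even (M.flen (M.fc d)) → χ (M.σ (M.α d)) = χ d + 1 := fun d h => by
    have := hχ d
    rw [if_pos h] at this
    exact this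
  let N := M.cover χ hχ' hodd
  let ω : D × ZMod 2 → ZMod r := fun x => if x.2 = 0 then 1 else -1
  obtain ⟨p, hp⟩ := N.face_pot ω
    (by
      rintro ⟨d, ε⟩
      exact sgn_flip ε)
    (by
      rintro ⟨v, ε⟩
      have : ∑ x with N.vtx x = (v, ε), ω x
          = ∑ d with M.vtx d = v, (if ε = 0 then (1 : ZMod r) else -1) := by
        symm
        refine sum_bij (fun d _ => (d, ε)) ?_ ?_ ?_ ?_
        · intro d hd
          have : M.vtx d = v := by simpa using hd
          simp only [mem_filter, mem_univ, true_and]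
          change (M.vtx d, ε) = (v, ε)
          rw [this]
        · intro d _ d' _ h
          exact (Prod.mk.inj h).1
        · rintro ⟨d, ε'⟩ hx
          have h : (M.vtx d, ε') = (v, ε) := (mem_filter.mp hx).2
          obtain ⟨h1, h2⟩ := Prod.mk.inj h
          exact ⟨d, by simp [h1], by rw [h2]⟩
        · intro d _
          rfl
      rw [this, sum_const, deg, nsmul_eq_mul, ZMod.natCast_self, zero_mul])
  let b : D → ZMod 2 → ZMod r := fun d ε => p (N.fc (d, ε))
  have hα0 : ∀ d, b (M.α d) 1 = b d 0 + 1 := fun d => by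
    have := hp (d, 0)
    rw [sub_eq_iff_eq_add, add_comm] at this
    exact this
  have hα1 : ∀ d, b (M.α d) 0 = b d 1 - 1 := fun d => by
    have := hp (d, 1)
    rw [sub_eq_iff_eq_add, add_comm] at this
    rw [sub_eq_add_neg]
    exact this
  have hσ0 : ∀ d, b (M.σ d) 0 = b (M.α d) 1 := fun d => congrArg p (N.fσ (d, 0))
  have hσ1 : ∀ d, b (M.σ d) 1 = b (M.α d) 0 := fun d => congrArg p (N.fσ (d, 1))
  have hc := M.const (fun d => b d 0 + b d 1)
    (fun d => by simp only [hσ0, hσ1, hα0, hα1]; ring)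
    (fun d => by simp only [hα0, hα1]; ring)
  have ht : ∀ d ε, M.fc d = f1 → b d ε = p (Sum.inr ⟨f1, hf1⟩) := by
    intro d ε hd
    subst hd
    change p (if h : Even (M.flen (M.fc d)) then Sum.inl (⟨M.fc d, h⟩, ε + χ d)
      else Sum.inr ⟨M.fc d, h⟩) = _
    rw [dif_neg hf1]
  obtain ⟨d1, hd1⟩ := M.fsurj f1
  refine ⟨fun d => b d 0 - p (Sum.inr ⟨f1, hf1⟩), fun d => ?_, fun d => ?_, fun d hd => ?_⟩
  · simp only [hσ0, hα0]
    ring
  · have h1 := hc d d1
    simp only [ht d1 _ hd1] at h1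
    have h2 : b (M.σ (M.α d)) 0 = b d 1 := by rw [hσ0, M.αα]
    simp only [h2]
    linear_combination h1
  · simp only [ht d _ hd, sub_self]

end SMap

end Pool.Agent.Lib.MP_fe5cb4_co
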