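import Pool.Agent.Lib.MP_fe5cb4_co.Colour

/-!
The edge colouring of a spherical `r`-graph with at most two odd faces.
-/

set_option autoImplicit false

namespace Pool.Agent.Lib.MP_fe5cb4_co

open Finset

lemma half_inj (r : ℕ) [NeZero r] (u : ZMod (2 * r)) (m n : ℤ) (hm : Even m) (hn : Even n)
    (h : (u + m).val / 2 = (u + n).val / 2) : (2 * r : ℤ) ∣ m - n := by
  have : NeZero (2 * r) := ⟨by have := NeZero.ne r; omega⟩
  have h1 : (((u + m).val : ℤ) : ZMod (2 * r)) - (((u + n).val : ℤ) : ZMod (2 * r))
      = ((m - n : ℤ) : ZMod (2 * r)) := by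
    push_cast
    simp only [ZMod.natCast_val, ZMod.cast_id', id]
    ring
  rw [← Int.cast_sub, ZMod.intCast_eq_intCast_iff_dvd_sub] at h1
  generalize (u + m).val = p at h h1
  generalize (u + n).val = q at h h1
  obtain ⟨k, hk⟩ := h1
  obtain ⟨m', rfl⟩ := hm
  obtain ⟨n', rfl⟩ := hn
  have h3 : ((2 * r : ℕ) : ℤ) * k = 2 * (r * k) := by push_cast; ring
  have h2 : (p : ℤ) = q := by omega
  exact ⟨k, by linarith⟩

namespace SMap

variable {D V F : Type} [Fintype D] [Fintype V] [Fintype F] [DecidableEq V] [DecidableEq F]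
  (M : SMap D V F) {r : ℕ} [NeZero r] (hr : 2 ≤ r) (deg : ∀ v, #{d | M.vtx d = v} = r)
  (hfc : ∀ x y, M.fc x = M.fc y → (M.σ * M.α).SameCycle x y)
  (a : D → ZMod r) (ha1 : ∀ d, a (M.σ d) = a d + 1) (ha2 : ∀ d, a (M.σ (M.α d)) = -a d)
  (hwild : ∀ d, ¬ Even (M.flen (M.fc d)) → a d = 0)
  (w : V → D) (hw1 : ∀ v, M.vtx (w v) = v) (hw2 : ∀ v, a (w v) = 0)
  (b : F → ℤ) (hbe : ∀ f, Even (M.flen f) → b f = 0)
  (hbo : ∀ f, ¬ Even (M.flen f) → b f = r ∨ b f = -r)

omit [NeZero r] in
include hr in
lemma neg_one_ne : (-1 : ZMod r) ≠ 0 := by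
  have : Fact (1 < r) := ⟨by omega⟩
  exact neg_ne_zero.mpr one_ne_zero

include hr deg hfc ha1 ha2 hwild hw1 hw2 hbe hbo in
theorem colour_of_orient (η : D → ℤ) (hη1 : ∀ d, η (M.α d) = -η d)
    (hη2 : ∀ d, ¬ (a d = 0 ∨ a d = -1) → η d = 1 ∨ η d = -1)
    (hη3 : ∀ d, (a d = 0 ∨ a d = -1) → η d = 0)
    (hη4 : ∀ f, ∑ d with M.fc (w (M.vtx d)) = f, η d = b f) :
    ∃ c : D → Fin r, (∀ d, c (M.α d) = c d) ∧
      ∀ d d', M.vtx d = M.vtx d' → c d = c d' → d = d' := by
  have : NeZero (2 * r) := ⟨by omega⟩
  have hn1 := neg_one_ne hr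
  have haα := M.a_α a ha1 ha2
  have h2r : (r : ZMod (2 * r)) + r = 0 := by
    have := ZMod.natCast_self (2 * r)
    push_cast at this
    linear_combination this
  let dvv : V → ℤ := fun v => ∑ d with M.vtx d = v, η d
  let x : D → ZMod (2 * r) := fun d =>
    (η d : ZMod (2 * r)) - if a d = -1 then (dvv (M.vtx d) : ZMod (2 * r)) else 0
  let y : D → ZMod (2 * r) := fun d => r + if a d = 0 then x (M.α d) else 0
  have hx0 : ∀ d, a d = 0 → x d = 0 := by
    intro d h
    simp only [x, hη3 d (Or.inl h), h, if_neg hn1.symm]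
    simp
  obtain ⟨U, hU1, hU2⟩ := M.lift hfc x y
    (by
      intro v
      simp only [x]
      rw [sum_sub_distrib, ← sum_filter, filter_filter]
      have : ∑ d with M.vtx d = v ∧ a d = -1, (dvv (M.vtx d) : ZMod (2 * r))
          = ∑ d with M.vtx d = v ∧ a d = -1, (dvv v : ZMod (2 * r)) :=
        sum_congr rfl fun d hd => by
          simp only [mem_filter, mem_univ, true_and] at hd
          rw [hd.1]
      rw [this, sum_const, M.card_a deg a ha1, one_smul]
      simp [dvv])
    (by
      intro f
      simp only [y]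
      rw [sum_add_distrib, sum_const, ← sum_filter, filter_filter, nsmul_eq_mul]
      have e1 : ∑ d with M.fc d = f ∧ a d = 0, x (M.α d)
          = ∑ d with M.fc d = f ∧ a d = 0, -(dvv (M.vtx ((M.σ * M.α) d)) : ZMod (2 * r)) :=
        sum_congr rfl fun d hd => by
          simp only [mem_filter, mem_univ, true_and] at hd
          have h1 : a (M.α d) = -1 := by rw [haα, hd.2, sub_zero]
          simp only [x, hη3 _ (Or.inr h1), if_pos h1, Equiv.Perm.mul_apply, M.vσ]
          simp
      rw [e1, sum_perm (M.σ * M.α) (fun d => M.fc d = f ∧ a d = 0)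
        (fun d => by rw [Equiv.Perm.mul_apply, M.fφ, ha2, neg_eq_zero])
        (fun d => -(dvv (M.vtx d) : ZMod (2 * r))),
        ← M.sum_wf deg a ha1 w hw1 hw2 f (fun v => -(dvv v : ZMod (2 * r))), sum_neg_distrib]
      have e2 : ∑ v with M.fc (w v) = f, dvv v = b f := by
        rw [← hη4 f, ← sum_fiberwise_of_maps_to (s := univ.filter fun d => M.fc (w (M.vtx d)) = f)
          (t := univ.filter fun v => M.fc (w v) = f) (g := M.vtx) (fun d hd => by simpa using hd)]
        refine sum_congr rfl fun v hv => ?_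
        have hv' : M.fc (w v) = f := by simpa using hv
        rw [filter_filter]
        refine sum_congr ?_ fun _ _ => rfl
        ext d
        simp only [mem_filter, mem_univ, true_and]
        exact ⟨fun h => ⟨by rw [h, hv'], h⟩, fun h => h.2⟩
      rw [← Int.cast_sum, e2]
      change (M.flen f : ZMod (2 * r)) * r + _ = 0
      by_cases hf : Even (M.flen f)
      · rw [hbe f hf]
        obtain ⟨k, hk⟩ := hf
        rw [hk]
        push_cast
        linear_combination k * h2r
      · obtain ⟨k, hk⟩ := Nat.not_even_iff_odd.mp hf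
        rw [hk]
        rcases hbo f hf with h | h <;> rw [h] <;> push_cast
        · linear_combination k * h2r
        · linear_combination (k + 1) * h2r)
    (by
      intro d
      simp only [y, M.αα]
      by_cases h0 : a d = 0
      · have h1 : a (M.α d) ≠ 0 := by rw [haα, h0, sub_zero]; exact hn1
        rw [if_pos h0, if_neg h1, hx0 d h0]
        linear_combination -h2r
      · by_cases h1 : a (M.α d) = 0
        · rw [if_neg h0, if_pos h1, hx0 _ h1]
          linear_combination -h2r
        · rw [if_neg h0, if_neg h1]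
          have h2 : a d ≠ -1 := fun h => h1 (by rw [haα, h, sub_self])
          have h3 : a (M.α d) ≠ -1 := fun h => h0 (by rw [haα] at h; linear_combination -h)
          simp only [x, if_neg h2, if_neg h3, hη1]
          push_cast
          linear_combination -h2r)
  let e : D → ℤ := fun d => if a d = -1 then 1 else η d
  let κ : D → ZMod (2 * r) := fun d => U d + ((e d * ((a d).val + 1) : ℤ) : ZMod (2 * r))
  have hval : ((-1 : ZMod r).val + 1 : ℤ) = r := by
    obtain ⟨r', rfl⟩ : ∃ r', r = r' + 1 := ⟨r - 1, by omega⟩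
    rw [ZMod.val_neg_one]
    push_cast
    ring
  have hUα : ∀ d, U (M.α d) = U d + y d - x (M.α d) := by
    intro d
    have := hU2 d
    rw [hU1] at this
    linear_combination this
  have hκ0 : ∀ d, a d = 0 → κ (M.α d) = κ d := by
    intro d h0
    have h1 : a (M.α d) = -1 := by rw [haα, h0, sub_zero]
    simp only [κ, e, hUα, y, h1, if_true, hval, h0, if_neg hn1.symm,
      hη3 d (Or.inl h0)]
    push_cast
    linear_combination h2r
  have hκ : ∀ d, κ (M.α d) = κ d := by
    intro d
    by_cases h0 : a d = 0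
    · exact hκ0 d h0
    by_cases h1 : a (M.α d) = 0
    · have := hκ0 _ h1
      rw [M.αα] at this
      exact this.symm
    have h2 : a d ≠ -1 := fun h => h1 (by rw [haα, h, sub_self])
    have h3 : a (M.α d) ≠ -1 := fun h => h0 (by rw [haα] at h; linear_combination -h)
    have h4 : ((a (M.α d)).val : ℤ) + (a d).val + 1 = r := by
      have h5 : (((a (M.α d)).val + (a d).val + 1 : ℕ) : ZMod r) = 0 := by
        push_cast
        simp only [ZMod.natCast_val, ZMod.cast_id', id]
        rw [haα]
        ring
      rw [ZMod.natCast_eq_zero_iff] at h5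
      obtain ⟨k, hk⟩ := h5
      have l1 := ZMod.val_lt (a (M.α d))
      have l2 := ZMod.val_lt (a d)
      have hk1 : k = 1 := by
        rcases k with _ | _ | k
        · omega
        · rfl
        · exfalso
          have : r * (k + 1 + 1) = r * k + 2 * r := by ring
          omega
      subst hk1
      omega
    have h5 : ((a (M.α d)).val : ℤ) = r - 1 - (a d).val := by linarith
    simp only [κ, e, hUα, y, x, if_neg h0, if_neg h2, if_neg h3, h5, hη1]
    rcases hη2 d (by tauto) with h | h <;> rw [h] <;> push_cast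
    · ring
    · linear_combination h2r
  have hκv : ∀ d, κ d = U (w (M.vtx d)) +
      ((∑ k ∈ range (a d).val, e ((M.σ ^ k) (w (M.vtx d)))
        + e ((M.σ ^ (a d).val) (w (M.vtx d))) * ((a d).val + 1) : ℤ) : ZMod (2 * r)) := by
    intro d
    have h1 : (M.σ ^ (a d).val) (w (M.vtx d)) = d :=
      M.a_inj deg a ha1 _ _ (by rw [M.vtx_pow, hw1])
        (by rw [M.a_pow a ha1, hw2, zero_add, ZMod.natCast_zmod_val])
    have h2 : ∀ k, k < r → U ((M.σ ^ k) (w (M.vtx d))) = U (w (M.vtx d)) +
        ((∑ i ∈ range k, e ((M.σ ^ i) (w (M.vtx d))) : ℤ) : ZMod (2 * r)) := by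
      intro k
      induction k with
      | zero => simp
      | succ k ih =>
        intro hk
        have h3 : a ((M.σ ^ k) (w (M.vtx d))) ≠ -1 := by
          rw [M.a_pow a ha1, hw2, zero_add]
          intro h
          have : ((k + 1 : ℕ) : ZMod r) = 0 := by push_cast; rw [h]; ring
          rw [ZMod.natCast_eq_zero_iff] at this
          have := Nat.le_of_dvd (by omega) this
          omega
        rw [pow_succ', Equiv.Perm.mul_apply, hU1, ih (by omega), sum_range_succ]
        simp only [x, e, if_neg h3]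
        push_cast
        ring
    have h3 := h2 _ (ZMod.val_lt (a d))
    rw [h1] at h3
    rw [h1]
    simp only [κ]
    rw [h3]
    push_cast
    ring
  have he0 : ∀ v, e ((M.σ ^ 0) (w v)) = 0 := by
    intro v
    simp only [pow_zero, Equiv.Perm.one_apply, e, hw2, if_neg hn1.symm]
    exact hη3 _ (Or.inl (hw2 v))
  have he1 : ∀ v i, 1 ≤ i → i < r → e ((M.σ ^ i) (w v)) = 1 ∨ e ((M.σ ^ i) (w v)) = -1 := by
    intro v i h1 h2
    simp only [e]
    split_ifs with h
    · exact Or.inl rfl
    · refine hη2 _ ?_
      rintro (h' | h')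
      · rw [M.a_pow a ha1, hw2, zero_add, ZMod.natCast_eq_zero_iff] at h'
        have := Nat.le_of_dvd (by omega) h'
        omega
      · exact h h'
  refine ⟨fun d => ⟨(κ d).val / 2, by have := ZMod.val_lt (κ d); omega⟩, fun d => ?_, ?_⟩
  · simp only [hκ]
  · intro d d' hv hc
    have hc' : (κ d).val / 2 = (κ d').val / 2 := congrArg Fin.val hc
    rw [hκv d, hκv d', ← hv] at hc'
    have l1 := ZMod.val_lt (a d)
    have l2 := ZMod.val_lt (a d')
    have hd := half_inj r _ _ _
      (chain_par r (fun k => e ((M.σ ^ k) (w (M.vtx d)))) (he0 _) (he1 _) _ l1)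
      (chain_par r (fun k => e ((M.σ ^ k) (w (M.vtx d)))) (he0 _) (he1 _) _ l2) hc'
    refine M.a_inj deg a ha1 _ _ hv (ZMod.val_injective _ ?_)
    rcases lt_trichotomy (a d).val (a d').val with h | h | h
    · exact absurd hd
        (chain_sep r (fun k => e ((M.σ ^ k) (w (M.vtx d)))) (he0 _) (he1 _) _ _ h l2)
    · exact h
    · exact absurd (dvd_sub_comm.mp hd)
        (chain_sep r (fun k => e ((M.σ ^ k) (w (M.vtx d)))) (he0 _) (he1 _) _ _ h l1)

include hr deg hfc ha1 ha2 hwild hw1 hw2 hbe hbo in
theorem exists_eta (hb0 : ∑ f, b f = 0)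
    (hbS : ∀ S : Finset F, ∑ f ∈ S, b f ≤ 0 ∨
      (∑ f ∈ S, b f ≤ r ∧ Odd #{f ∈ S | ¬ Even (M.flen f)}))
    (hcut : ∀ X : Finset V, Odd #X → r ≤ #{d | M.vtx d ∈ X ∧ M.vtx (M.α d) ∉ X}) :
    ∃ η : D → ℤ, (∀ d, η (M.α d) = -η d) ∧ (∀ d, ¬ (a d = 0 ∨ a d = -1) → η d = 1 ∨ η d = -1) ∧
      (∀ d, (a d = 0 ∨ a d = -1) → η d = 0) ∧
      ∀ f, ∑ d with M.fc (w (M.vtx d)) = f, η d = b f := by
  have hn1 := neg_one_ne hr
  have haα := M.a_α a ha1 ha2
  have hpar : ∀ f, Even #{v | M.fc (w v) = f} ↔ Even (M.flen f) := by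
    intro f
    rcases M.card_wf deg hfc a ha1 ha2 w hw1 hw2 f with ⟨h1, h2⟩ | ⟨h1, _⟩
    · rw [h1]
      obtain ⟨d, rfl⟩ := M.fsurj f
      refine ⟨fun _ => ?_, fun _ => Even.zero⟩
      by_contra h
      exact h2 d rfl (hwild d h)
    · rw [h1]
  obtain ⟨η, h1, h2, h3, h4⟩ := exists_orient M.α M.o M.αα M.oα (fun d => ¬ (a d = 0 ∨ a d = -1))
    (fun d => by
      rw [haα]
      refine not_congr ⟨?_, ?_⟩
      · rintro (h | h)
        · right; linear_combination -h
        · left; linear_combination -h
      · rintro (h | h)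
        · right; rw [h, sub_zero]
        · left; rw [h, sub_self])
    (fun d => M.fc (w (M.vtx d))) b hb0
    (by
      intro f
      have e1 : ∀ v, #{d | M.vtx d = v ∧ ¬ (a d = 0 ∨ a d = -1)} + 2 = r := by
        intro v
        have k1 := card_filter_add_card_filter_not (s := univ.filter fun d => M.vtx d = v)
          (fun d => a d = 0 ∨ a d = -1)
        rw [filter_filter, filter_filter, deg] at k1
        have k2 : #{d | M.vtx d = v ∧ (a d = 0 ∨ a d = -1)} = 2 := by
          have : DecidableEq D := Classical.decEq D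
          have : (univ.filter fun d => M.vtx d = v ∧ (a d = 0 ∨ a d = -1))
              = (univ.filter fun d => M.vtx d = v ∧ a d = 0) ∪
                (univ.filter fun d => M.vtx d = v ∧ a d = -1) := by
            ext d
            simp only [mem_filter, mem_univ, true_and, mem_union]
            tauto
          rw [this, card_union_of_disjoint, M.card_a deg a ha1, M.card_a deg a ha1]
          rw [disjoint_filter]
          rintro d _ ⟨_, h⟩ ⟨_, h'⟩
          exact hn1 (h'.symm.trans h)
        omega
      have e2 : #{d | ¬ (a d = 0 ∨ a d = -1) ∧ M.fc (w (M.vtx d)) = f}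
          = #{v | M.fc (w v) = f} * (r - 2) := by
        rw [card_eq_sum_card_fiberwise (f := M.vtx) (t := univ.filter fun v => M.fc (w v) = f)
          (fun d hd => by
            have := (mem_filter.mp hd).2.2
            simpa using this), ← smul_eq_mul, ← sum_const]
        refine sum_congr rfl fun v hv => ?_
        have hv' : M.fc (w v) = f := by simpa using hv
        rw [← Nat.eq_sub_of_add_eq (e1 v), filter_filter]
        congr 1
        ext d
        simp only [mem_filter, mem_univ, true_and]
        exact ⟨fun h => ⟨h.2, h.1.1⟩, fun h => ⟨⟨h.2, by rw [h.1, hv']⟩, h.1⟩⟩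
      rw [e2]
      obtain ⟨r', rfl⟩ : ∃ r', r = r' + 2 := ⟨r - 2, by omega⟩
      rw [Nat.add_sub_cancel]
      by_cases hf : Even (M.flen f)
      · rw [hbe f hf]
        obtain ⟨k, hk⟩ := (hpar f).mpr hf
        rw [hk]
        exact ⟨k * r', by push_cast; ring⟩
      · obtain ⟨k, hk⟩ := Nat.not_even_iff_odd.mp (fun h => hf ((hpar f).mp h))
        rw [hk]
        rcases hbo f hf with h | h <;> rw [h]
        · exact ⟨k * r' - 1, by push_cast; ring⟩
        · exact ⟨k * r' + r' + 1, by push_cast; ring⟩)
    (by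
      intro S
      rcases hbS S with h | ⟨h, h'⟩
      · exact h.trans (by positivity)
      · refine h.trans ?_
        have k1 := hcut {v | M.fc (w v) ∈ S} (by
          rw [M.card_wf_mem w S, Finset.odd_sum_iff_odd_card_odd]
          convert h' using 3 with f
          rw [← Nat.not_even_iff_odd, hpar])
        have k2 : (univ.filter fun d => M.vtx d ∈ (univ.filter fun v => M.fc (w v) ∈ S) ∧
              M.vtx (M.α d) ∉ (univ.filter fun v => M.fc (w v) ∈ S))
            = univ.filter fun d => ¬ (a d = 0 ∨ a d = -1) ∧ M.fc (w (M.vtx d)) ∈ S ∧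
              M.fc (w (M.vtx (M.α d))) ∉ S := by
          ext d
          simp only [mem_filter, mem_univ, true_and]
          refine ⟨fun h => ⟨fun h' => h.2 ?_, h⟩, fun h => h.2⟩
          rw [M.wf_α deg a ha1 ha2 w hw1 hw2 d h']
          exact h.1
        rw [k2] at k1
        exact_mod_cast k1)
  exact ⟨η, h1, h2, fun d h => h3 d (not_not.mpr h), h4⟩

include hr deg hfc in
/-- A spherical `r`-graph with at most two odd faces has a proper `r`-edge-colouring. -/
theorem colouring (hodd : Fintype.card {f // ¬ Even (M.flen f)} ≤ 2)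
    (hcut : ∀ X : Finset V, Odd #X → r ≤ #{d | M.vtx d ∈ X ∧ M.vtx (M.α d) ∉ X}) :
    ∃ c : D → Fin r, (∀ d, c (M.α d) = c d) ∧
      ∀ d d', M.vtx d = M.vtx d' → c d = c d' → d = d' := by
  have hD : Even #{f | ¬ Even (M.flen f)} := by
    have h1 := sum_split M.α M.o M.oα (fun _ => (1 : ℕ))
    simp only [sum_const, smul_eq_mul, mul_one] at h1
    have h2 : #(univ : Finset D) = ∑ f, M.flen f :=
      card_eq_sum_card_fiberwise (f := M.fc) (t := univ) (fun _ _ => mem_univ _)
    have h3 : ¬ Odd (∑ f, M.flen f) := by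
      rw [← h2, h1, Nat.not_odd_iff_even]
      exact ⟨_, rfl⟩
    rw [Finset.odd_sum_iff_odd_card_odd, Nat.not_odd_iff_even] at h3
    simpa only [Nat.not_even_iff_odd] using h3
  have hc := Fintype.card_subtype (fun f => ¬ Even (M.flen f))
  have hV : Even (Fintype.card V) := by
    by_contra h
    have := hcut univ (Nat.not_even_iff_odd.mp h)
    simp at this
    omega
  have hcases : #{f | ¬ Even (M.flen f)} = 0 ∨ #{f | ¬ Even (M.flen f)} = 2 := by
    obtain ⟨k, hk⟩ := hD
    omega
  rcases hcases with h0 | h2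
  · have hev : ∀ f, Even (M.flen f) := by
      intro f
      by_contra h
      rw [card_eq_zero, filter_eq_empty_iff] at h0
      exact h0 (mem_univ f) h
    obtain ⟨a, ha1, ha2⟩ := M.label_even r deg hev
    choose w hw1 hw2 using fun v => M.a_surj a ha1 v 0
    have hwild : ∀ d, ¬ Even (M.flen (M.fc d)) → a d = 0 := fun d h => absurd (hev _) h
    obtain ⟨η, h1, h2, h3, h4⟩ := M.exists_eta hr deg hfc a ha1 ha2 hwild w hw1 hw2 0
      (fun _ _ => rfl) (fun f h => absurd (hev f) h) (by simp) (fun S => Or.inl (by simp)) hcut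
    exact M.colour_of_orient hr deg hfc a ha1 ha2 hwild w hw1 hw2 0 (fun _ _ => rfl)
      (fun f h => absurd (hev f) h) η h1 h2 h3 h4
  · obtain ⟨f1, f2, hne, h12⟩ := card_eq_two.mp h2
    have hmem : ∀ f, ¬ Even (M.flen f) ↔ f = f1 ∨ f = f2 := by
      intro f
      have : f ∈ (univ.filter fun f => ¬ Even (M.flen f)) ↔ f ∈ ({f1, f2} : Finset F) := by
        rw [h12]
      simpa only [mem_filter, mem_univ, true_and, mem_insert, mem_singleton] using this
    obtain ⟨a, ha1, ha2, ha3⟩ := M.label_two r deg hfc (hc.trans h2) f1 ((hmem f1).mpr (Or.inl rfl))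
    choose w hw1 hw2 using fun v => M.a_surj a ha1 v 0
    have hwild : ∀ d, ¬ Even (M.flen (M.fc d)) → a d = 0 := by
      intro d hd
      rcases (hmem _).mp hd with h | h
      · exact ha3 d h
      · rcases M.card_wf deg hfc a ha1 ha2 w hw1 hw2 f2 with ⟨k1, _⟩ | ⟨_, k2⟩
        · exfalso
          have k3 := M.card_wf_mem w univ
          simp only [mem_univ, filter_true, card_univ] at k3
          rw [k3, ← Nat.not_odd_iff_even, Finset.odd_sum_iff_odd_card_odd] at hV
          apply hV
          have : (univ.filter fun f => Odd #{v | M.fc (w v) = f}) = {f1} := by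
            ext f
            simp only [mem_filter, mem_univ, true_and, mem_singleton]
            constructor
            · intro hf
              rcases M.card_wf deg hfc a ha1 ha2 w hw1 hw2 f with ⟨k4, _⟩ | ⟨k4, _⟩
              · rw [k4] at hf
                exact absurd hf (by decide)
              · rcases (hmem f).mp (by rw [← k4]; exact Nat.not_even_iff_odd.mpr hf) with h | h
                · exact h
                · rw [h, k1] at hf
                  exact absurd hf (by decide)
            · rintro rfl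
              rcases M.card_wf deg hfc a ha1 ha2 w hw1 hw2 f with ⟨_, k4⟩ | ⟨k4, _⟩
              · obtain ⟨x, hx⟩ := M.fsurj f
                exact absurd (ha3 x hx) (k4 x hx)
              · rw [k4]
                exact Nat.not_even_iff_odd.mp ((hmem f).mpr (Or.inl rfl))
          rw [this]
          simp
        · exact k2 d h
    let b : F → ℤ := fun f => (if f = f1 then (r : ℤ) else 0) - if f = f2 then (r : ℤ) else 0
    have hbS : ∀ S : Finset F, ∑ f ∈ S, b f
        = (if f1 ∈ S then (r : ℤ) else 0) - if f2 ∈ S then (r : ℤ) else 0 := by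
      intro S
      simp only [b, sum_sub_distrib, sum_ite_eq']
    have hbe : ∀ f, Even (M.flen f) → b f = 0 := by
      intro f hf
      have := (hmem f).not.mp (not_not.mpr hf)
      push Not at this
      simp [b, this.1, this.2]
    have hbo : ∀ f, ¬ Even (M.flen f) → b f = r ∨ b f = -r := by
      intro f hf
      rcases (hmem f).mp hf with rfl | rfl
      · left; simp [b, hne]
      · right; simp [b, hne.symm]
    obtain ⟨η, h1, h2, h3, h4⟩ := M.exists_eta hr deg hfc a ha1 ha2 hwild w hw1 hw2 b hbe hbo
      (by rw [hbS]; simp)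
      (by
        intro S
        rw [hbS]
        by_cases k1 : f1 ∈ S <;> by_cases k2 : f2 ∈ S
        · left; simp [k1, k2]
        · right
          refine ⟨by simp [k1, k2], ?_⟩
          have : (S.filter fun f => ¬ Even (M.flen f)) = {f1} := by
            ext f
            simp only [mem_filter, mem_singleton, hmem]
            constructor
            · rintro ⟨h, rfl | rfl⟩
              · rfl
              · exact absurd h k2
            · rintro rfl
              exact ⟨k1, Or.inl rfl⟩
          rw [this]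
          simp
        · left; simp [k1, k2]
        · left; simp [k1, k2]) hcut
    exact M.colour_of_orient hr deg hfc a ha1 ha2 hwild w hw1 hw2 b hbe hbo η h1 h2 h3 h4

end SMap

end Pool.Agent.Lib.MP_fe5cb4_co
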