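import Mathlib

/-!
Two fixed point free involutions of a finite set: a colouring kept by one and flipped by the other.
-/

set_option autoImplicit false

namespace Pool.Agent.Lib.MP_fe5cb4_co.Proj

open Equiv

variable {X : Type} {t m : Perm X}

theorem dihedral (ht : t * t = 1) (hm : m * m = 1) (j : ℤ) :
    t * (t * m) ^ j = (t * m) ^ (-j) * t := by
  have h1 : t⁻¹ = t := inv_eq_of_mul_eq_one_right ht
  have h2 : m⁻¹ = m := inv_eq_of_mul_eq_one_right hm
  have h3 : t * (t * m) * t⁻¹ = (t * m)⁻¹ := by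
    rw [← mul_assoc, ht, one_mul, mul_inv_rev, h1, h2]
  have h4 : t * (t * m) ^ j * t⁻¹ = (t * m) ^ (-j) := by
    rw [← conj_zpow, h3, inv_zpow']
  rw [← h4, mul_assoc, inv_mul_cancel, mul_one]

theorem flip_ne (ht : t * t = 1) (hm : m * m = 1) (ht' : ∀ x, t x ≠ x) (hm' : ∀ x, m x ≠ x)
    (i j : ℤ) (x : X) : t (((t * m) ^ i) x) ≠ ((t * m) ^ j) x := by
  intro h
  have hd : ∀ (k : ℤ) (y : X), t (((t * m) ^ k) y) = ((t * m) ^ (-k)) (t y) := fun k y => by
    rw [← Perm.mul_apply, dihedral ht hm, Perm.mul_apply]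
  have hadd : ∀ (a b : ℤ) (y : X), ((t * m) ^ (a + b)) y = ((t * m) ^ a) (((t * m) ^ b) y) :=
    fun a b y => by rw [zpow_add, Perm.mul_apply]
  have h0 : t x = ((t * m) ^ (i + j)) x := by
    rw [hadd, ← h, hd, ← hadd]
    simp
  obtain ⟨k, hk | hk⟩ := Int.even_or_odd' (i + j)
  · apply ht' (((t * m) ^ k) x)
    rw [hd, h0, ← hadd, hk]
    congr 2
    ring
  · apply hm' (((t * m) ^ k) x)
    have e : m (((t * m) ^ k) x) = t (((t * m) ^ (1 + k)) x) := by
      rw [hadd, zpow_one, Perm.mul_apply, ← Perm.mul_apply t t, ht, Perm.one_apply]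
    rw [e, hd, h0, ← hadd, hk]
    congr 2
    ring

/-- The orbit relation of the group generated by `t` and `m`. -/
def Orb (t m : Perm X) (x y : X) : Prop := ∃ j : ℤ, y = ((t * m) ^ j) x ∨ y = t (((t * m) ^ j) x)

/-- Points with an odd period under `t * m`. -/
def OddPer (t m : Perm X) (x : X) : Prop := ∃ j : ℤ, Odd j ∧ ((t * m) ^ j) x = x

theorem orb_equivalence (ht : t * t = 1) (hm : m * m = 1) : Equivalence (Orb t m) := by
  have hd : ∀ (k : ℤ) (y : X), t (((t * m) ^ k) y) = ((t * m) ^ (-k)) (t y) := fun k y => by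
    rw [← Perm.mul_apply, dihedral ht hm, Perm.mul_apply]
  have hadd : ∀ (a b : ℤ) (y : X), ((t * m) ^ (a + b)) y = ((t * m) ^ a) (((t * m) ^ b) y) :=
    fun a b y => by rw [zpow_add, Perm.mul_apply]
  have htt : ∀ x, t (t x) = x := fun x => by rw [← Perm.mul_apply, ht, Perm.one_apply]
  refine ⟨fun x => ⟨0, Or.inl (by simp)⟩, ?_, ?_⟩
  · rintro x y ⟨j, rfl | rfl⟩
    · exact ⟨-j, Or.inl (by rw [← hadd]; simp)⟩
    · exact ⟨j, Or.inr (by rw [hd j (t _), htt, ← hadd]; simp)⟩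
  · rintro x y z ⟨i, rfl | rfl⟩ ⟨j, rfl | rfl⟩
    · exact ⟨j + i, Or.inl (by rw [hadd])⟩
    · exact ⟨j + i, Or.inr (by rw [hadd])⟩
    · exact ⟨-j + i, Or.inr (by rw [hadd, hd (-j), neg_neg])⟩
    · exact ⟨-j + i, Or.inl (by rw [hadd, hd j (t _), htt])⟩

theorem orb_t (x : X) : Orb t m x (t x) := ⟨0, Or.inr (by simp)⟩

theorem orb_m (ht : t * t = 1) (x : X) : Orb t m x (m x) :=
  ⟨1, Or.inr (by rw [zpow_one, Perm.mul_apply, ← Perm.mul_apply t t, ht, Perm.one_apply])⟩

theorem OddPer.nat {x : X} (h : OddPer t m x) : ∃ n : ℕ, Odd n ∧ ((t * m) ^ n) x = x := by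
  obtain ⟨j, hj, hx⟩ := h
  obtain ⟨n, rfl | rfl⟩ := j.eq_nat_or_neg
  · exact ⟨n, (Int.odd_coe_nat n).1 hj, by simpa using hx⟩
  · refine ⟨n, (Int.odd_coe_nat n).1 (by simpa using hj.neg), ?_⟩
    conv_lhs => rw [← hx]
    rw [← Perm.mul_apply, ← zpow_natCast, ← zpow_add]
    simp

theorem exists_colouring [Finite X] (ht : t * t = 1) (hm : m * m = 1) (ht' : ∀ x, t x ≠ x)
    (hm' : ∀ x, m x ≠ x) (h4 : 4 ∣ Nat.card X)
    (hone : ∀ x y, OddPer t m x → OddPer t m y → Orb t m x y) :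
    ∃ χ : X → Bool, ∀ x, χ (m x) = χ x ∧ χ (t x) = !χ x := by
  classical
  have hd : ∀ (k : ℤ) (y : X), t (((t * m) ^ k) y) = ((t * m) ^ (-k)) (t y) := fun k y => by
    rw [← Perm.mul_apply, dihedral ht hm, Perm.mul_apply]
  have hadd : ∀ (a b : ℤ) (y : X), ((t * m) ^ (a + b)) y = ((t * m) ^ a) (((t * m) ^ b) y) :=
    fun a b y => by rw [zpow_add, Perm.mul_apply]
  have htt : ∀ x, t (t x) = x := fun x => by rw [← Perm.mul_apply, ht, Perm.one_apply]
  have hmt : ∀ x, m x = t (((t * m) ^ (1 : ℤ)) x) := fun x => by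
    rw [zpow_one, Perm.mul_apply, htt]
  have hmm : ∀ x, m (m x) = x := fun x => by rw [← Perm.mul_apply, hm, Perm.one_apply]
  let R : Setoid X := ⟨Orb t m, orb_equivalence ht hm⟩
  have hper : ∀ x y, Orb t m x y → OddPer t m x → OddPer t m y := by
    rintro x y ⟨i, rfl | rfl⟩ ⟨j, hj, hx⟩
    · exact ⟨j, hj, by rw [← hadd, add_comm, hadd, hx]⟩
    · refine ⟨-j, hj.neg, ?_⟩
      rw [← hd, ← hadd, add_comm, hadd, hx]
  let r : X → X := fun x => (Quotient.mk R x).out
  have hr : ∀ x, Orb t m (r x) x := fun x => Quotient.exact (Quotient.out_eq (Quotient.mk R x))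
  have hrr : ∀ x y, Orb t m x y → r x = r y := fun x y h => by
    have : Quotient.mk R x = Quotient.mk R y := Quotient.sound h
    simp only [r, this]
  have hOt : ∀ x, Orb t m x (t x) := fun x => ⟨0, Or.inr (by simp)⟩
  have hOm : ∀ x, Orb t m x (m x) := fun x => ⟨1, Or.inr (hmt x)⟩
  let P : X → Prop := fun y => ∃ j : ℤ, (Even j ∧ y = ((t * m) ^ j) (r y)) ∨
    (Odd j ∧ y = t (((t * m) ^ j) (r y)))
  have hPm1 : ∀ y, P y → P (m y) := by
    rintro y ⟨j, ⟨hj, h⟩ | ⟨hj, h⟩⟩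
    · refine ⟨1 + j, Or.inr ⟨odd_one.add_even hj, ?_⟩⟩
      rw [← hrr _ _ (hOm y), hadd, ← h, hmt]
    · refine ⟨-1 + j, Or.inl ⟨odd_neg_one.add_odd hj, ?_⟩⟩
      rw [← hrr _ _ (hOm y), hadd, hmt, hd 1 y]
      congr 1
      rw [h, htt, ← h]
  have hPm : ∀ y, P (m y) ↔ P y := fun y => ⟨fun h => by simpa [hmm] using hPm1 _ h, hPm1 y⟩
  have hPt : ∀ y, ¬ OddPer t m y → (P (t y) ↔ ¬ P y) := by
    intro y hy
    have hry : ¬ OddPer t m (r y) := fun h => hy (hper _ _ (hr y) h)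
    have hpar : ∀ i j : ℤ, Even i → Odd j → ((t * m) ^ i) (r y) ≠ ((t * m) ^ j) (r y) := by
      intro i j hi hj h
      refine hry ⟨-i + j, hi.neg.add_odd hj, ?_⟩
      rw [hadd, ← h, ← hadd]
      simp
    constructor
    · rintro ⟨i, hi⟩ ⟨j, hj⟩
      rw [← hrr _ _ (hOt y)] at hi
      rcases hi with ⟨hi, e1⟩ | ⟨hi, e1⟩ <;> rcases hj with ⟨hj, e2⟩ | ⟨hj, e2⟩
      · exact flip_ne ht hm ht' hm' j i (r y) (by rw [← e2, e1])
      · exact hpar i j hi hj (by rw [← e1, ← htt (((t * m) ^ j) (r y)), ← e2])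
      · exact hpar j i hj hi (by rw [← e2]; exact t.injective e1)
      · exact flip_ne ht hm ht' hm' j i (r y) (by rw [← e2]; exact t.injective e1)
    · intro hn
      obtain ⟨j, h | h⟩ := hr y
      · rcases Int.even_or_odd j with hj | hj
        · exact absurd ⟨j, Or.inl ⟨hj, h⟩⟩ hn
        · exact ⟨j, Or.inr ⟨hj, by rw [← hrr _ _ (hOt y), ← h]⟩⟩
      · rcases Int.even_or_odd j with hj | hj
        · exact ⟨j, Or.inl ⟨hj, by
            rw [← hrr _ _ (hOt y), ← htt (((t * m) ^ j) (r y)), ← h]⟩⟩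
        · exact absurd ⟨j, Or.inr ⟨hj, h⟩⟩ hn
  have hno : ∀ x, ¬ OddPer t m x := by
    intro x hx
    have := Fintype.ofFinite X
    let G1 : Finset X := Finset.univ.filter fun y => ¬ OddPer t m y ∧ P y
    let B1 : Finset X := Finset.univ.filter fun y => ∃ j : ℤ, y = ((t * m) ^ j) x
    have hG : Even G1.card := by
      have h1 : ∑ _y ∈ G1, (1 : ZMod 2) = 0 := by
        refine Finset.sum_involution (fun y _ => m y) (fun _ _ => by decide)
          (fun y _ _ => hm' y) (fun y hy => ?_) (fun y _ => hmm y)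
        simp only [G1, Finset.mem_filter, Finset.mem_univ, true_and] at hy ⊢
        exact ⟨fun h => hy.1 (hper _ _ (R.symm (hOm y)) h), hPm1 y hy.2⟩
      rw [Finset.sum_const, nsmul_eq_mul, mul_one] at h1
      exact (ZMod.natCast_eq_zero_iff_even).1 h1
    have hB : Odd B1.card := by
      obtain ⟨j, hj, hjx⟩ := hx
      have h1 : Function.minimalPeriod ((t * m) • ·) x =
          Fintype.card (MulAction.orbit (Subgroup.zpowers (t * m)) x) :=
        MulAction.minimalPeriod_eq_card _ _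
      have h2 : Fintype.card (MulAction.orbit (Subgroup.zpowers (t * m)) x) = B1.card := by
        refine Fintype.card_of_subtype _ fun y => ?_
        simp only [B1, Finset.mem_filter, Finset.mem_univ, true_and]
        constructor
        · rintro ⟨k, rfl⟩
          exact ⟨⟨(t * m) ^ k, k, rfl⟩, rfl⟩
        · rintro ⟨⟨g, k, rfl⟩, rfl⟩
          exact ⟨k, rfl⟩
      have h3 : (Function.minimalPeriod ((t * m) • ·) x : ℤ) ∣ j :=
        MulAction.zpow_smul_eq_iff_minimalPeriod_dvd.1 hjx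
      rw [h1, h2] at h3
      rw [← Nat.not_even_iff_odd]
      intro h
      have h5 : (2 : ℤ) ∣ (B1.card : ℤ) := by exact_mod_cast even_iff_two_dvd.1 h
      exact Int.not_even_iff_odd.2 hj (even_iff_two_dvd.2 (h5.trans h3))
    have hdis : Disjoint G1 B1 := by
      rw [Finset.disjoint_left]
      intro y hy hy'
      simp only [G1, B1, Finset.mem_filter, Finset.mem_univ, true_and] at hy hy'
      obtain ⟨j, hj⟩ := hy'
      exact hy.1 (hper _ _ ⟨j, Or.inl hj⟩ hx)
    have hhalf : ∀ y, t y ∈ G1 ∪ B1 ↔ y ∉ G1 ∪ B1 := by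
      intro y
      simp only [G1, B1, Finset.mem_union, Finset.mem_filter, Finset.mem_univ, true_and]
      by_cases hy : OddPer t m y
      · have hy' : OddPer t m (t y) := hper _ _ (hOt y) hy
        simp only [hy, hy', not_true_eq_false, false_and, false_or]
        constructor
        · rintro ⟨i, hi⟩ ⟨j, hj⟩
          exact flip_ne ht hm ht' hm' j i x (by rw [← hj, hi])
        · intro hn
          obtain ⟨j, h | h⟩ := hone x y hx hy
          · exact absurd ⟨j, h⟩ hn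
          · exact ⟨j, by rw [h, htt]⟩
      · have hy' : ¬ OddPer t m (t y) := fun h => hy (hper _ _ (R.symm (hOt y)) h)
        have e1 : ¬ ∃ j : ℤ, y = ((t * m) ^ j) x := fun ⟨j, hj⟩ =>
          hy (hper _ _ ⟨j, Or.inl hj⟩ hx)
        have e2 : ¬ ∃ j : ℤ, t y = ((t * m) ^ j) x := fun ⟨j, hj⟩ =>
          hy' (hper _ _ ⟨j, Or.inl hj⟩ hx)
        simp only [hy, hy', e1, e2, not_false_eq_true, true_and, or_false]
        exact hPt y hy
    have hcard : (G1 ∪ B1)ᶜ.card = (G1 ∪ B1).card := by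
      refine Finset.card_bij (fun y _ => t y) (fun y hy => (hhalf y).2 (Finset.mem_compl.1 hy))
        (fun _ _ _ _ h => t.injective h) fun y hy => ⟨t y, ?_, htt y⟩
      rw [Finset.mem_compl, hhalf, not_not]
      exact hy
    have htot := Finset.card_add_card_compl (G1 ∪ B1)
    rw [hcard, Finset.card_union_of_disjoint hdis, ← Nat.card_eq_fintype_card] at htot
    obtain ⟨a, ha⟩ := hG
    obtain ⟨b, hb⟩ := hB
    omega
  refine ⟨fun y => decide (P y), fun x => ⟨by simp only [hPm], ?_⟩⟩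
  simp only [hPt x (hno x), decide_not]

end Pool.Agent.Lib.MP_fe5cb4_co.Proj
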