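import Pool.Agent.Lib.MP_fe5cb4_co.ProjSplit

/-!
From the planar double cover to a double cover by perfect matchings.
-/

set_option autoImplicit false

namespace Pool.Agent.Lib.MP_fe5cb4_co.Proj

variable {V E : Type} {s d : E → V}

theorem card_cast {α : Type} [Fintype α] (S : Set α) [DecidablePred (· ∈ S)] :
    ((Nat.card S : ℕ) : ZMod 2) = ∑ x, if x ∈ S then 1 else 0 := by
  rw [Finset.sum_boole, Nat.card_eq_fintype_card, Fintype.card_subtype]

theorem Draw.deg (D : Draw s d) (hl : ∀ e, s e ≠ d e) (x : V × Bool) :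
    Nat.card {e : E × Bool // D.s' e = x ∨ D.d' e = x} =
      Nat.card {e : E // s e = x.1 ∨ d e = x.1} := by
  obtain ⟨v, c⟩ := x
  refine Nat.card_congr (Equiv.ofBijective (fun e => ⟨e.1.1, e.2.imp (congrArg Prod.fst)
    (congrArg Prod.fst)⟩) ⟨?_, ?_⟩)
  · rintro ⟨⟨e, b⟩, h⟩ ⟨⟨e', b'⟩, h'⟩ he
    obtain rfl : e = e' := congrArg Subtype.val he
    simp only [Draw.s', Draw.d', Prod.mk.injEq] at h h'
    simp only [Subtype.mk.injEq, Prod.mk.injEq, true_and]
    rcases h with ⟨h1, h2⟩ | ⟨h1, h2⟩ <;> rcases h' with ⟨h3, h4⟩ | ⟨h3, h4⟩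
    · simpa using h2.trans h4.symm
    · exact absurd (h1.trans h3.symm) (hl e)
    · exact absurd (h3.trans h1.symm) (hl e)
    · simpa using h2.trans h4.symm
  · rintro ⟨e, h | h⟩
    · exact ⟨⟨(e, xor c (D.σ e)), Or.inl (by simpa [Draw.s'] using h)⟩, rfl⟩
    · exact ⟨⟨(e, xor c (D.τ e)), Or.inr (by simpa [Draw.d'] using h)⟩, rfl⟩

theorem Draw.cut [Finite V] [Finite E] (D : Draw s d) (r : ℕ)
    (hc : ∀ U : Set V, Odd (Nat.card U) →
      r ≤ Nat.card {e : E // (s e ∈ U ∧ d e ∉ U) ∨ (s e ∉ U ∧ d e ∈ U)})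
    (W : Set (V × Bool)) (hW : Odd (Nat.card W)) :
    r ≤ Nat.card {e : E × Bool // (D.s' e ∈ W ∧ D.d' e ∉ W) ∨ (D.s' e ∉ W ∧ D.d' e ∈ W)} := by
  classical
  have := Fintype.ofFinite V
  let U : Set V := {v | ¬ ((v, true) ∈ W ↔ (v, false) ∈ W)}
  have hU : Odd (Nat.card U) := by
    rw [← ZMod.natCast_eq_one_iff_odd] at hW ⊢
    rw [← hW, card_cast, card_cast, Fintype.sum_prod_type]
    refine Finset.sum_congr rfl fun v _ => ?_
    simp only [U, Set.mem_ofPred_eq, Fintype.sum_bool]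
    by_cases h1 : (v, true) ∈ W <;> by_cases h2 : (v, false) ∈ W <;> simp [h1, h2]
    decide
  refine (hc U hU).trans ?_
  have hex : ∀ e : {e : E // (s e ∈ U ∧ d e ∉ U) ∨ (s e ∉ U ∧ d e ∈ U)}, ∃ b,
      (D.s' (e.1, b) ∈ W ∧ D.d' (e.1, b) ∉ W) ∨ (D.s' (e.1, b) ∉ W ∧ D.d' (e.1, b) ∈ W) := by
    rintro ⟨e, he⟩
    simp only [U, Set.mem_ofPred_eq] at he
    simp only [Draw.s', Draw.d', Bool.exists_bool]
    cases D.σ e <;> cases D.τ e <;> simp <;> tauto
  choose b hb using hex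
  refine Nat.card_le_card_of_injective (fun e => ⟨(e.1, b e), hb e⟩) fun e e' h => ?_
  exact Subtype.ext (congrArg (fun x => x.1.1) h)

theorem Draw.double [Finite V] [Finite E] (D : Draw s d) (r : ℕ) (hl : ∀ e, s e ≠ d e)
    (hc : ∀ U : Set V, Odd (Nat.card U) →
      r ≤ Nat.card {e : E // (s e ∈ U ∧ d e ∉ U) ∨ (s e ∉ U ∧ d e ∈ U)})
    (M : Fin r → Set (E × Bool))
    (hM : ∀ i x, Nat.card {e // e ∈ M i ∧ (D.s' e = x ∨ D.d' e = x)} = 1)
    (hM' : ∀ e, Nat.card {i : Fin r // e ∈ M i} = 1) :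
    ∃ N : Fin (2 * r) → Set E,
      (∀ i v, Nat.card {e : E // e ∈ N i ∧ (s e = v ∨ d e = v)} = 1) ∧
      ∀ e, Nat.card {i : Fin (2 * r) // e ∈ N i} = 2 := by
  classical
  have hV : ∀ _i : Fin r, Even (Nat.card V) := by
    intro i
    rw [← Nat.not_odd_iff_even]
    intro h
    have h1 := hc Set.univ (by simpa using h)
    have h2 := i.pos
    simp at h1
    omega
  choose χ hχ1 hχ2 using fun i => D.split hl (hV i) (M i) (hM i)
  have hflip : ∀ i v b c, χ i (v, b) = χ i (v, c) → b = c := by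
    intro i v b c h
    have h1 : χ i (v, false) = !χ i (v, true) := hχ2 i v true
    cases b <;> cases c
    · rfl
    · rw [h1] at h
      exact absurd h (by simp)
    · rw [h1] at h
      exact absurd h (by simp)
    · rfl
  let N : Fin r × Bool → Set E := fun k => {e | ∃ b, (e, b) ∈ M k.1 ∧ χ k.1 (D.s' (e, b)) = k.2}
  let κ : Fin (2 * r) ≃ Fin r × Bool := Fintype.equivOfCardEq (by simp [mul_comm])
  refine ⟨fun i => N (κ i), fun i v => ?_, fun e => ?_⟩
  · show Nat.card {e : E // e ∈ N (κ i) ∧ (s e = v ∨ d e = v)} = 1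
    obtain ⟨j, a⟩ := κ i
    obtain ⟨c, hca⟩ : ∃ c, χ j (v, c) = a := by
      have h1 : χ j (v, false) = !χ j (v, true) := hχ2 j v true
      by_cases h : χ j (v, true) = a
      · exact ⟨true, h⟩
      · exact ⟨false, by rw [h1]; exact (Bool.eq_not.2 (Ne.symm h)).symm⟩
    obtain ⟨hs, ⟨e0⟩⟩ := Nat.card_eq_one_iff_unique.1 (hM j (v, c))
    have key : ∀ e : {e : E // e ∈ N (j, a) ∧ (s e = v ∨ d e = v)}, e.1 = e0.1.1 := by
      rintro ⟨e, ⟨b, hb, hba⟩, h⟩
      have : D.s' (e, b) = (v, c) ∨ D.d' (e, b) = (v, c) := by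
        rcases h with rfl | rfl
        · exact Or.inl (Prod.ext rfl (hflip j _ _ _ (hba.trans hca.symm)))
        · exact Or.inr (Prod.ext rfl (hflip j _ _ _ (((hχ1 j _ hb).symm.trans hba).trans hca.symm)))
      exact congrArg (fun x => x.1.1) (hs.elim ⟨(e, b), hb, this⟩ e0)
    refine Nat.card_eq_one_iff_unique.2 ⟨⟨fun e e' => Subtype.ext ((key e).trans (key e').symm)⟩,
      ⟨⟨e0.1.1, ⟨e0.1.2, e0.2.1, ?_⟩, e0.2.2.imp (congrArg Prod.fst) (congrArg Prod.fst)⟩⟩⟩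
    rcases e0.2.2 with h | h
    · exact (congrArg (χ j) h).trans hca
    · exact ((hχ1 j _ e0.2.1).trans (congrArg (χ j) h)).trans hca
  · have hex : ∀ b, ∃ i, (e, b) ∈ M i ∧ ∀ i', (e, b) ∈ M i' → i' = i := by
      intro b
      obtain ⟨hs, ⟨i⟩⟩ := Nat.card_eq_one_iff_unique.1 (hM' (e, b))
      exact ⟨i.1, i.2, fun i' h => congrArg Subtype.val (hs.elim ⟨i', h⟩ i)⟩
    choose ι h1 h2 using hex
    have : Nat.card Bool = Nat.card {i : Fin (2 * r) // e ∈ N (κ i)} := by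
      refine Nat.card_congr (Equiv.ofBijective (fun b =>
        ⟨κ.symm (ι b, χ (ι b) (D.s' (e, b))), by
          rw [Equiv.apply_symm_apply]; exact ⟨b, h1 b, rfl⟩⟩) ⟨?_, ?_⟩)
      · intro b c h
        have h3 := κ.symm.injective (congrArg Subtype.val h)
        rw [Prod.mk.injEq] at h3
        obtain ⟨h4, h5⟩ := h3
        rw [h4] at h5
        simpa using hflip _ _ _ _ h5
      · rintro ⟨i, b, hb, hba⟩
        refine ⟨b, Subtype.ext ?_⟩
        show κ.symm _ = i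
        rw [Equiv.symm_apply_eq, ← h2 b _ hb, hba]
    rw [← this]
    simp

end Pool.Agent.Lib.MP_fe5cb4_co.Proj
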