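import Pool.Agent.Lib.MP_fe5cb4_co.ProjSplit

/-!
The Petersen graph drawn on the Moebius band.
-/

set_option autoImplicit false

namespace Pool.Agent.Lib.MP_fe5cb4_co.Proj

open Complex

/-- Polar coordinates with angle unit `π / 5`. -/
noncomputable def pol (R θ : ℝ) : ℂ := R * exp ((Real.pi * θ / 5 : ℝ) * I)

theorem norm_pol {R : ℝ} (hR : 0 ≤ R) (θ : ℝ) : ‖pol R θ‖ = R := by
  rw [pol, norm_mul, Complex.norm_exp_ofReal_mul_I, mul_one, Complex.norm_real,
    Real.norm_of_nonneg hR]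

theorem pol_ne_zero {R : ℝ} (hR : 0 < R) (θ : ℝ) : pol R θ ≠ 0 := by
  rw [← norm_pos_iff, norm_pol hR.le]
  exact hR

theorem pol_add (R θ : ℝ) (n : ℤ) : pol R (θ + 10 * n) = pol R θ := by
  unfold pol
  congr 1
  rw [Complex.exp_eq_exp_iff_exists_int]
  exact ⟨n, by push_cast; ring⟩

theorem pol_inj {R θ θ' : ℝ} (hR : 0 < R) (h : pol R θ = pol R θ') :
    ∃ n : ℤ, θ = θ' + 10 * n := by
  have h1 := mul_left_cancel₀ (by exact_mod_cast hR.ne') h
  obtain ⟨n, hn⟩ := Complex.exp_eq_exp_iff_exists_int.1 h1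
  have h2 := congrArg Complex.im hn
  simp at h2
  refine ⟨n, mul_left_cancel₀ Real.pi_ne_zero ?_⟩
  linarith

theorem anti_pol {R : ℝ} (θ : ℝ) : anti (pol R θ) = pol R⁻¹ (θ + 5) := by
  unfold anti pol
  have h : (((Real.pi * (θ + 5) / 5 : ℝ) : ℂ) * I) =
      ((Real.pi * θ / 5 : ℝ) : ℂ) * I + Real.pi * I := by push_cast; ring
  rw [h, Complex.exp_add, Complex.exp_pi_mul_I, map_mul, ← Complex.exp_conj, map_mul,
    Complex.conj_ofReal, Complex.conj_ofReal, Complex.conj_I, mul_neg, Complex.exp_neg, mul_inv,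
    inv_inv]
  push_cast
  ring

theorem same_pol {R R' θ θ' : ℝ} (h0 : 0 < R) (h1 : R ≤ 1) (h0' : 0 < R') (h1' : R' ≤ 1)
    (h : Same (pol R θ) (pol R' θ')) :
    R = R' ∧ ∃ n : ℤ, θ = θ' + 10 * n ∨ (R = 1 ∧ θ = θ' + 5 + 10 * n) := by
  rcases h with h | h
  · obtain rfl : R = R' := by rw [← norm_pol h0.le θ, h, norm_pol h0'.le]
    obtain ⟨n, hn⟩ := pol_inj h0 h
    exact ⟨rfl, n, Or.inl hn⟩
  · rw [anti_pol] at h
    have e : R = R'⁻¹ := by rw [← norm_pol h0.le θ, h, norm_pol (inv_pos.2 h0').le]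
    have e1 : R * R' = 1 := by rw [e, inv_mul_cancel₀ h0'.ne']
    have e2 : R = 1 := by nlinarith
    have e3 : R' = 1 := by nlinarith
    rw [← e] at h
    obtain ⟨n, hn⟩ := pol_inj h0 h
    exact ⟨e2.trans e3.symm, n, Or.inr ⟨e2, hn⟩⟩

theorem same_pol_one (θ : ℝ) (n : ℤ) : Same (pol 1 (θ + 5 * n)) (pol 1 θ) := by
  obtain ⟨k, rfl | rfl⟩ := Int.even_or_odd' n
  · refine Or.inl ?_
    rw [← pol_add 1 θ k]
    congr 1
    push_cast
    ring
  · refine Or.inr ?_
    rw [anti_pol, inv_one, ← pol_add 1 (θ + 5) k]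
    congr 1
    push_cast
    ring

theorem int_end (x : unitInterval) (n : ℤ) (h : (x : ℝ) = n) : x = 0 ∨ x = 1 := by
  have h0 : (0 : ℝ) ≤ n := h ▸ x.2.1
  have h1 : (n : ℝ) ≤ 1 := h ▸ x.2.2
  have h0' : 0 ≤ n := by exact_mod_cast h0
  have h1' : n ≤ 1 := by exact_mod_cast h1
  rcases (by omega : n = 0 ∨ n = 1) with rfl | rfl
  · exact Or.inl (Subtype.ext (by simpa using h))
  · exact Or.inr (Subtype.ext (by simpa using h))

theorem int_diff (x y : unitInterval) (n : ℤ) (h : (x : ℝ) - y = n) :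
    n = 0 ∨ x = 0 ∨ x = 1 := by
  have hx := x.2
  have hy := y.2
  have h0 : (-1 : ℝ) ≤ n := by linarith [hx.1, hy.2]
  have h1 : (n : ℝ) ≤ 1 := by linarith [hx.2, hy.1]
  have h0' : -1 ≤ n := by exact_mod_cast h0
  have h1' : n ≤ 1 := by exact_mod_cast h1
  rcases (by omega : n = 0 ∨ n = -1 ∨ n = 1) with rfl | rfl | rfl
  · exact Or.inl rfl
  · refine Or.inr (Or.inl (Subtype.ext ?_))
    push_cast at h
    show (x : ℝ) = 0
    linarith [hx.1, hy.2]
  · refine Or.inr (Or.inr (Subtype.ext ?_))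
    push_cast at h
    show (x : ℝ) = 1
    linarith [hx.2, hy.1]

/-- First ends: inner pentagon, spokes, rim. -/
def ps (e : Fin 3 × Fin 5) : Bool × Fin 5 :=
  if e.1 = 0 then (false, e.2) else if e.1 = 1 then (false, e.2) else (true, 3 * e.2)

/-- Second ends. -/
def pd (e : Fin 3 × Fin 5) : Bool × Fin 5 :=
  if e.1 = 0 then (false, e.2 + 1) else if e.1 = 1 then (true, e.2) else (true, 3 * e.2 + 3)

/-- Vertex points. -/
noncomputable def pp (v : Bool × Fin 5) : ℂ := pol (if v.1 then 1 else 1 / 2) (2 * (v.2 : ℕ))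

/-- Radii along the arcs. -/
noncomputable def pR (c : Fin 3) (x : unitInterval) : ℝ :=
  if c = 0 then 1 / 2 else if c = 1 then (1 + x) / 2 else 1

/-- Angles along the arcs. -/
noncomputable def pθ (e : Fin 3 × Fin 5) (x : unitInterval) : ℝ :=
  if e.1 = 0 then 2 * (e.2 : ℕ) + 2 * x else if e.1 = 1 then 2 * (e.2 : ℕ) else (e.2 : ℕ) + x

/-- The arcs. -/
noncomputable def pγ (e : Fin 3 × Fin 5) (x : unitInterval) : ℂ := pol (pR e.1 x) (pθ e x)

theorem pR_pos (c : Fin 3) (x : unitInterval) : 0 < pR c x := by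
  have := x.2.1
  unfold pR
  split_ifs <;> linarith

theorem pR_le (c : Fin 3) (x : unitInterval) : pR c x ≤ 1 := by
  have := x.2.2
  unfold pR
  split_ifs <;> linarith

theorem pp_ne (v : Bool × Fin 5) : pp v ≠ 0 := pol_ne_zero (by split_ifs <;> norm_num) _

theorem pp_inj (v w : Bool × Fin 5) (h : Same (pp v) (pp w)) : v = w := by
  obtain ⟨a, k⟩ := v
  obtain ⟨b, l⟩ := w
  obtain ⟨h1, n, h2⟩ := same_pol (by split_ifs <;> norm_num) (by split_ifs <;> norm_num)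
    (by split_ifs <;> norm_num) (by split_ifs <;> norm_num) h
  have hab : a = b := by cases a <;> cases b <;> first | rfl | norm_num at h1
  have hkl : k = l := by
    have hk := k.2
    have hl := l.2
    apply Fin.ext
    rcases h2 with h2 | ⟨-, h2⟩
    · have : (2 * (k : ℕ) : ℤ) = 2 * (l : ℕ) + 10 * n := by exact_mod_cast h2
      omega
    · have : (2 * (k : ℕ) : ℤ) = 2 * (l : ℕ) + 5 + 10 * n := by exact_mod_cast h2
      omega
  rw [hab, hkl]

theorem pγ_cont (e : Fin 3 × Fin 5) : Continuous (pγ e) := by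
  unfold pγ pol pR pθ
  split_ifs <;> fun_prop

theorem pγ_ne (e : Fin 3 × Fin 5) (x : unitInterval) : pγ e x ≠ 0 := pol_ne_zero (pR_pos _ _) _

theorem small_zero {a : ℝ} {n : ℤ} (h : a = 5 * n) (h1 : -2 ≤ a) (h2 : a ≤ 2) : a = 0 := by
  have h3 : (-2 : ℝ) ≤ 5 * n := h ▸ h1
  have h4 : (5 * n : ℝ) ≤ 2 := h ▸ h2
  have h5 : (-2 : ℤ) ≤ 5 * n := by exact_mod_cast h3
  have h6 : (5 * n : ℤ) ≤ 2 := by exact_mod_cast h4
  obtain rfl : n = 0 := by omega
  simpa using h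

theorem pγ_inj (e : Fin 3 × Fin 5) (x y : unitInterval) (h : Same (pγ e x) (pγ e y)) : x = y := by
  obtain ⟨c, k⟩ := e
  obtain ⟨h1, n, h2⟩ := same_pol (pR_pos _ _) (pR_le _ _) (pR_pos _ _) (pR_le _ _) h
  have hx := x.2
  have hy := y.2
  have h3 : ∃ n : ℤ, pθ (c, k) x - pθ (c, k) y = 5 * n := by
    rcases h2 with h2 | ⟨-, h2⟩
    · exact ⟨2 * n, by push_cast; linarith⟩
    · exact ⟨2 * n + 1, by push_cast; linarith⟩
  obtain ⟨n', h3⟩ := h3
  apply Subtype.ext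
  fin_cases c
  · simp [pθ] at h3
    have := small_zero h3 (by linarith [hx.1, hy.2]) (by linarith [hx.2, hy.1])
    linarith
  · simp [pR] at h1
    rw [h1]
  · simp [pθ] at h3
    have := small_zero h3 (by linarith [hx.1, hy.2]) (by linarith [hx.2, hy.1])
    linarith

theorem pγ_src (e : Fin 3 × Fin 5) : Same (pγ e 0) (pp (ps e)) := by
  obtain ⟨c, k⟩ := e
  fin_cases c
  · exact Or.inl (by simp [pγ, pp, ps, pR, pθ])
  · exact Or.inl (by simp [pγ, pp, ps, pR, pθ])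
  · have h : ∃ n : ℤ, ((k : ℕ) : ℤ) = 2 * ((3 * k : Fin 5) : ℕ) + 5 * n := by
      fin_cases k
      exacts [⟨0, by decide⟩, ⟨-1, by decide⟩, ⟨0, by decide⟩, ⟨-1, by decide⟩, ⟨0, by decide⟩]
    obtain ⟨n, hn⟩ := h
    have hn' : ((k : ℕ) : ℝ) = 2 * ((3 * k : Fin 5) : ℕ) + 5 * n := by exact_mod_cast hn
    have := same_pol_one (2 * ((3 * k : Fin 5) : ℕ)) n
    rw [← hn'] at this
    simpa [pγ, pp, ps, pR, pθ] using this

theorem pγ_tgt (e : Fin 3 × Fin 5) : Same (pγ e 1) (pp (pd e)) := by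
  obtain ⟨c, k⟩ := e
  fin_cases c
  · have h : ∃ n : ℤ, (2 * (k : ℕ) + 2 : ℤ) = 2 * ((k + 1 : Fin 5) : ℕ) + 10 * n := by
      fin_cases k
      exacts [⟨0, by decide⟩, ⟨0, by decide⟩, ⟨0, by decide⟩, ⟨0, by decide⟩, ⟨1, by decide⟩]
    obtain ⟨n, hn⟩ := h
    have hn' : (2 * (k : ℕ) + 2 : ℝ) = 2 * ((k + 1 : Fin 5) : ℕ) + 10 * n := by exact_mod_cast hn
    have := pol_add (1 / 2) (2 * ((k + 1 : Fin 5) : ℕ)) n
    rw [← hn'] at this
    exact Or.inl (by simpa [pγ, pp, pd, pR, pθ] using this)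
  · exact Or.inl (by simp [pγ, pp, pd, pR, pθ])
  · have h : ∃ n : ℤ, ((k : ℕ) + 1 : ℤ) = 2 * ((3 * k + 3 : Fin 5) : ℕ) + 5 * n := by
      fin_cases k
      exacts [⟨-1, by decide⟩, ⟨0, by decide⟩, ⟨-1, by decide⟩, ⟨0, by decide⟩, ⟨1, by decide⟩]
    obtain ⟨n, hn⟩ := h
    have hn' : ((k : ℕ) + 1 : ℝ) = 2 * ((3 * k + 3 : Fin 5) : ℕ) + 5 * n := by exact_mod_cast hn
    have := same_pol_one (2 * ((3 * k + 3 : Fin 5) : ℕ)) n
    rw [← hn'] at this
    simpa [pγ, pp, pd, pR, pθ] using this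

theorem pγ_ends (e : Fin 3 × Fin 5) (x : unitInterval) (v : Bool × Fin 5)
    (h : Same (pγ e x) (pp v)) : x = 0 ∨ x = 1 := by
  obtain ⟨c, k⟩ := e
  obtain ⟨a, l⟩ := v
  obtain ⟨h1, n, h2⟩ := same_pol (pR_pos _ _) (pR_le _ _)
    (by split_ifs <;> norm_num) (by split_ifs <;> norm_num) h
  fin_cases c
  · simp [pθ, pR] at h2
    exact int_end x ((l : ℕ) + 5 * n - (k : ℕ)) (by push_cast; linarith)
  · cases a
    · simp [pR] at h1
      exact int_end x 0 (by push_cast; linarith)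
    · simp [pR] at h1
      exact int_end x 1 (by push_cast; linarith)
  · simp [pθ, pR] at h2
    rcases h2 with h2 | h2
    · exact int_end x (2 * (l : ℕ) + 10 * n - (k : ℕ)) (by push_cast; linarith)
    · exact int_end x (2 * (l : ℕ) + 5 + 10 * n - (k : ℕ)) (by push_cast; linarith)

theorem pγ_disj (e e' : Fin 3 × Fin 5) (x y : unitInterval) (hne : e ≠ e')
    (h : Same (pγ e x) (pγ e' y)) : ∃ v, Same (pγ e x) (pp v) := by
  suffices hx : x = 0 ∨ x = 1 by
    rcases hx with rfl | rfl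
    · exact ⟨_, pγ_src e⟩
    · exact ⟨_, pγ_tgt e⟩
  obtain ⟨c, k⟩ := e
  obtain ⟨c', l⟩ := e'
  obtain ⟨h1, n, h2⟩ := same_pol (pR_pos _ _) (pR_le _ _) (pR_pos _ _) (pR_le _ _) h
  have hk := k.2
  have hl := l.2
  have hkl : c = c' → (k : ℕ) ≠ l := fun h1 h2 => hne (by rw [h1, Fin.ext h2])
  fin_cases c <;> fin_cases c'
  · simp [pθ, pR] at h2
    rcases int_diff x y ((l : ℕ) + 5 * n - (k : ℕ)) (by push_cast; linarith) with h3 | h3
    · have := hkl rfl
      omega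
    · exact h3
  · simp [pθ, pR] at h2
    exact int_end x ((l : ℕ) + 5 * n - (k : ℕ)) (by push_cast; linarith)
  · norm_num [pR] at h1
  · simp [pR] at h1
    exact int_end x 0 (by push_cast; linarith)
  · simp only [pθ, Fin.mk_one, one_ne_zero, if_false, if_true] at h2
    have := hkl rfl
    rcases h2 with h2 | ⟨-, h2⟩
    · have : (2 * (k : ℕ) : ℤ) = 2 * (l : ℕ) + 10 * n := by exact_mod_cast h2
      omega
    · have : (2 * (k : ℕ) : ℤ) = 2 * (l : ℕ) + 5 + 10 * n := by exact_mod_cast h2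
      omega
  · simp [pR] at h1
    exact int_end x 1 (by push_cast; linarith)
  · norm_num [pR] at h1
  · simp [pθ, pR] at h2
    rcases h2 with h2 | h2
    · exact int_end x (2 * (l : ℕ) + 10 * n - (k : ℕ)) (by push_cast; linarith)
    · exact int_end x (2 * (l : ℕ) + 5 + 10 * n - (k : ℕ)) (by push_cast; linarith)
  · simp [pθ, pR] at h2
    have := hkl rfl
    rcases h2 with h2 | h2
    · rcases int_diff x y ((l : ℕ) + 10 * n - (k : ℕ)) (by push_cast; linarith) with h3 | h3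
      · omega
      · exact h3
    · rcases int_diff x y ((l : ℕ) + 5 + 10 * n - (k : ℕ)) (by push_cast; linarith) with h3 | h3
      · omega
      · exact h3

theorem p_loopless : ∀ e, ps e ≠ pd e := by decide

theorem p_regular (v : Bool × Fin 5) : Nat.card {e // ps e = v ∨ pd e = v} = 3 := by
  rw [Nat.card_eq_fintype_card, Fintype.card_subtype]
  revert v
  decide

/-- A Boolean function on two rows of five. -/
def row2 (a b : Fin 5 → Bool) (v : Bool × Fin 5) : Bool := if v.1 then b v.2 else a v.2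

theorem cut_bool : ∀ a0 a1 a2 a3 a4 b0 b1 b2 b3 b4 : Bool,
    (Finset.univ.filter fun v =>
      row2 ![a0, a1, a2, a3, a4] ![b0, b1, b2, b3, b4] v = true).card % 2 = 1 →
    3 ≤ (Finset.univ.filter fun e => row2 ![a0, a1, a2, a3, a4] ![b0, b1, b2, b3, b4] (ps e) ≠
      row2 ![a0, a1, a2, a3, a4] ![b0, b1, b2, b3, b4] (pd e)).card := by
  decide +kernel

theorem vec5 (a : Fin 5 → Bool) : ![a 0, a 1, a 2, a 3, a 4] = a := by
  funext i
  fin_cases i <;> rfl

theorem p_cut (U : Set (Bool × Fin 5)) (hU : Odd (Nat.card U)) :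
    3 ≤ Nat.card {e // (ps e ∈ U ∧ pd e ∉ U) ∨ (ps e ∉ U ∧ pd e ∈ U)} := by
  classical
  let a : Fin 5 → Bool := fun i => decide ((false, i) ∈ U)
  let b : Fin 5 → Bool := fun i => decide ((true, i) ∈ U)
  have hr : ∀ v, row2 a b v = decide (v ∈ U) := by
    rintro ⟨c, i⟩
    cases c <;> simp [row2, a, b]
  have h := cut_bool (a 0) (a 1) (a 2) (a 3) (a 4) (b 0) (b 1) (b 2) (b 3) (b 4)
  rw [vec5, vec5] at h
  simp only [hr, decide_eq_true_eq] at h
  rw [Nat.card_eq_fintype_card, Fintype.card_subtype] at hU ⊢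
  refine (h (Nat.odd_iff.1 hU)).trans (le_of_eq (congrArg _ (Finset.filter_congr fun e _ => ?_)))
  by_cases h1 : ps e ∈ U <;> by_cases h2 : pd e ∈ U <;> simp [h1, h2]

theorem one_of_three {E : Type} (Q : E → Prop) (e1 e2 e3 : E) (h12 : e1 ≠ e2) (h13 : e1 ≠ e3)
    (h23 : e2 ≠ e3) (M : Set E) [DecidablePred (· ∈ M)] (hQ : ∀ e, Q e ↔ e = e1 ∨ e = e2 ∨ e = e3)
    (h : Nat.card {e // e ∈ M ∧ Q e} = 1) :
    (if e1 ∈ M then 1 else 0) + (if e2 ∈ M then 1 else 0) + (if e3 ∈ M then 1 else 0) = 1 := by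
  obtain ⟨hs, ⟨e, he, hq⟩⟩ := Nat.card_eq_one_iff_unique.1 h
  have hu : ∀ f, f ∈ M → Q f → f = e := fun f h1 h2 =>
    congrArg Subtype.val (hs.elim ⟨f, h1, h2⟩ ⟨e, he, hq⟩)
  have q1 : Q e1 := (hQ _).2 (Or.inl rfl)
  have q2 : Q e2 := (hQ _).2 (Or.inr (Or.inl rfl))
  have q3 : Q e3 := (hQ _).2 (Or.inr (Or.inr rfl))
  rcases (hQ e).1 hq with rfl | rfl | rfl
  · rw [if_pos he, if_neg fun h => h12 (hu _ h q2).symm, if_neg fun h => h13 (hu _ h q3).symm]
  · rw [if_pos he, if_neg fun h => h12 (hu _ h q1), if_neg fun h => h23 (hu _ h q3).symm]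
  · rw [if_pos he, if_neg fun h => h13 (hu _ h q1), if_neg fun h => h23 (hu _ h q2)]

/-- Every perfect matching of the Petersen graph has an even number of inner edges. -/
theorem p_even (M : Set (Fin 3 × Fin 5)) [DecidablePred (· ∈ M)]
    (hM : ∀ v, Nat.card {e // e ∈ M ∧ (ps e = v ∨ pd e = v)} = 1) :
    Even (∑ k : Fin 5, if ((0 : Fin 3), k) ∈ M then 1 else 0) := by
  have i0 := one_of_three _ (0, 0) (0, 4) (1, 0) (by decide) (by decide) (by decide) M
    (by decide) (hM (false, 0))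
  have i1 := one_of_three _ (0, 1) (0, 0) (1, 1) (by decide) (by decide) (by decide) M
    (by decide) (hM (false, 1))
  have i2 := one_of_three _ (0, 2) (0, 1) (1, 2) (by decide) (by decide) (by decide) M
    (by decide) (hM (false, 2))
  have i3 := one_of_three _ (0, 3) (0, 2) (1, 3) (by decide) (by decide) (by decide) M
    (by decide) (hM (false, 3))
  have i4 := one_of_three _ (0, 4) (0, 3) (1, 4) (by decide) (by decide) (by decide) M
    (by decide) (hM (false, 4))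
  have o0 := one_of_three _ (2, 0) (2, 4) (1, 0) (by decide) (by decide) (by decide) M
    (by decide) (hM (true, 0))
  have o1 := one_of_three _ (2, 2) (2, 1) (1, 1) (by decide) (by decide) (by decide) M
    (by decide) (hM (true, 1))
  have o2 := one_of_three _ (2, 4) (2, 3) (1, 2) (by decide) (by decide) (by decide) M
    (by decide) (hM (true, 2))
  have o3 := one_of_three _ (2, 1) (2, 0) (1, 3) (by decide) (by decide) (by decide) M
    (by decide) (hM (true, 3))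
  have o4 := one_of_three _ (2, 3) (2, 2) (1, 4) (by decide) (by decide) (by decide) M
    (by decide) (hM (true, 4))
  rw [Fin.sum_univ_five, Nat.even_iff]
  generalize (if ((2 : Fin 3), (0 : Fin 5)) ∈ M then 1 else 0 : ℕ) = r0 at *
  generalize (if ((2 : Fin 3), (1 : Fin 5)) ∈ M then 1 else 0 : ℕ) = r1 at *
  generalize (if ((2 : Fin 3), (2 : Fin 5)) ∈ M then 1 else 0 : ℕ) = r2 at *
  generalize (if ((2 : Fin 3), (3 : Fin 5)) ∈ M then 1 else 0 : ℕ) = r3 at *
  generalize (if ((2 : Fin 3), (4 : Fin 5)) ∈ M then 1 else 0 : ℕ) = r4 at *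
  rcases (by omega : r0 = 0 ∨ r0 = 1) with rfl | rfl <;>
  rcases (by omega : r1 = 0 ∨ r1 = 1) with rfl | rfl <;>
  rcases (by omega : r2 = 0 ∨ r2 = 1) with rfl | rfl <;>
  rcases (by omega : r3 = 0 ∨ r3 = 1) with rfl | rfl <;>
  rcases (by omega : r4 = 0 ∨ r4 = 1) with rfl | rfl <;>
  omega

theorem p_t_even (t : ℕ) {I : Type} [Fintype I] (M : I → Set (Fin 3 × Fin 5))
    (hM : ∀ i v, Nat.card {e // e ∈ M i ∧ (ps e = v ∨ pd e = v)} = 1)
    (hc : ∀ e, Nat.card {i // e ∈ M i} = t) : Even t := by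
  classical
  have h1 : Even (∑ i, ∑ k : Fin 5, if ((0 : Fin 3), k) ∈ M i then 1 else 0) :=
    Finset.even_sum _ fun i _ => p_even (M i) (hM i)
  have h2 : ∀ k : Fin 5, (∑ i, if ((0 : Fin 3), k) ∈ M i then 1 else 0) = t := by
    intro k
    rw [← hc (0, k), Nat.card_eq_fintype_card, Fintype.card_subtype, Finset.card_filter]
  rw [Finset.sum_comm] at h1
  simp only [h2, Fin.sum_univ_five] at h1
  rw [Nat.even_iff] at h1 ⊢
  omega

end Pool.Agent.Lib.MP_fe5cb4_co.Proj
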