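import Pool.Agent.Lib.MP_fe5cb4_co.ProjTop
import Pool.Agent.Lib.MP_fe5cb4_co.ProjInv

/-!
Drawings on the open Moebius band, their planar double covers, and the splitting of a perfect
matching of the cover.
-/

set_option autoImplicit false

namespace Pool.Agent.Lib.MP_fe5cb4_co.Proj

open Equiv

/-- Two nonzero complex numbers represent the same point of the Moebius band. -/
def Same (z w : ℂ) : Prop := z = w ∨ z = anti w

/-- The deck transformation, applied or not. -/
noncomputable def ta (b : Bool) (z : ℂ) : ℂ := if b then anti z else z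

theorem ta_ta (b c : Bool) (z : ℂ) : ta b (ta c z) = ta (xor b c) z := by
  cases b <;> cases c <;> simp [ta, anti_anti]

theorem same_iff {z w : ℂ} : Same z w ↔ ∃ b, z = ta b w := by
  constructor
  · rintro (h | h)
    · exact ⟨false, h⟩
    · exact ⟨true, h⟩
  · rintro ⟨b, h⟩
    cases b
    · exact Or.inl h
    · exact Or.inr h

theorem Same.refl (z : ℂ) : Same z z := Or.inl rfl

theorem Same.symm {z w : ℂ} (h : Same z w) : Same w z := by
  rcases h with rfl | rfl
  · exact Or.inl rfl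
  · exact Or.inr (anti_anti _).symm

theorem Same.trans {z w u : ℂ} (h : Same z w) (h' : Same w u) : Same z u := by
  obtain ⟨b, rfl⟩ := same_iff.1 h
  obtain ⟨c, rfl⟩ := same_iff.1 h'
  exact same_iff.2 ⟨_, ta_ta _ _ _⟩

theorem same_ta (b : Bool) (z : ℂ) : Same (ta b z) z := same_iff.2 ⟨b, rfl⟩

theorem ta_ne_zero (b : Bool) {z : ℂ} (hz : z ≠ 0) : ta b z ≠ 0 := by
  cases b
  · exact hz
  · exact anti_ne_zero hz

theorem ta_inj {b c : Bool} {z : ℂ} (hz : z ≠ 0) (h : ta b z = ta c z) : b = c := by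
  cases b <;> cases c
  · rfl
  · exact absurd h.symm (anti_ne hz)
  · exact absurd h (anti_ne hz)
  · rfl

theorem continuous_ta (b : Bool) {f : unitInterval → ℂ} (hf : Continuous f) (h0 : ∀ x, f x ≠ 0) :
    Continuous fun x => ta b (f x) := by
  cases b
  · exact hf
  · exact continuous_anti hf h0

/-- A drawing on the Moebius band together with the sheets of the ends of the lifted arcs. -/
structure Draw {V E : Type} (s d : E → V) where
  p : V → ℂ
  γ : E → unitInterval → ℂ
  σ : E → Bool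
  τ : E → Bool
  p0 : ∀ v, p v ≠ 0
  pinj : ∀ v w, Same (p v) (p w) → v = w
  cont : ∀ e, Continuous (γ e)
  γ0 : ∀ e x, γ e x ≠ 0
  γinj : ∀ e x y, Same (γ e x) (γ e y) → x = y
  src : ∀ e, γ e 0 = ta (σ e) (p (s e))
  tgt : ∀ e, γ e 1 = ta (τ e) (p (d e))
  ends : ∀ e x v, Same (γ e x) (p v) → x = 0 ∨ x = 1
  disj : ∀ e e' x y, e ≠ e' → Same (γ e x) (γ e' y) → ∃ v, Same (γ e x) (p v)

variable {V E : Type} {s d : E → V}

/-- First end of a lifted edge. -/
def Draw.s' (D : Draw s d) (e : E × Bool) : V × Bool := (s e.1, xor e.2 (D.σ e.1))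

/-- Second end of a lifted edge. -/
def Draw.d' (D : Draw s d) (e : E × Bool) : V × Bool := (d e.1, xor e.2 (D.τ e.1))

/-- Lifted vertex points. -/
noncomputable def Draw.p' (D : Draw s d) (x : V × Bool) : ℂ := ta x.2 (D.p x.1)

theorem Draw.src' (D : Draw s d) (e : E × Bool) : ta e.2 (D.γ e.1 0) = D.p' (D.s' e) := by
  rw [D.src, ta_ta]; rfl

theorem Draw.tgt' (D : Draw s d) (e : E × Bool) : ta e.2 (D.γ e.1 1) = D.p' (D.d' e) := by
  rw [D.tgt, ta_ta]; rfl

theorem Draw.vertex (D : Draw s d) {e : E} {x : unitInterval} {v : V}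
    (h : Same (D.γ e x) (D.p v)) : v = s e ∨ v = d e := by
  rcases D.ends e x v h with rfl | rfl
  · rw [D.src] at h
    exact Or.inl (D.pinj _ _ (h.symm.trans (same_ta _ _)))
  · rw [D.tgt] at h
    exact Or.inr (D.pinj _ _ (h.symm.trans (same_ta _ _)))

/-- The double cover is drawn in the plane. -/
theorem Draw.planar (D : Draw s d) :
    ∃ p : V × Bool → ℂ, Function.Injective p ∧ ∃ γ : E × Bool → unitInterval → ℂ,
      (∀ e, Continuous (γ e) ∧ Function.Injective (γ e) ∧ γ e 0 = p (D.s' e) ∧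
        γ e 1 = p (D.d' e)) ∧
      (∀ e x, γ e x ∈ Set.range p → x = 0 ∨ x = 1) ∧
      (∀ e e' x y, e ≠ e' → γ e x = γ e' y → γ e x ∈ Set.range p) := by
  refine ⟨D.p', ?_, fun e x => ta e.2 (D.γ e.1 x), fun e => ⟨?_, ?_, D.src' e, D.tgt' e⟩, ?_, ?_⟩
  · rintro ⟨v, b⟩ ⟨w, c⟩ h
    have h' : ta b (D.p v) = ta c (D.p w) := h
    obtain rfl : v = w := D.pinj _ _ ((same_ta b _).symm.trans (h' ▸ same_ta c _))
    rw [ta_inj (D.p0 v) h']
  · exact continuous_ta _ (D.cont _) (D.γ0 _)
  · intro x y h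
    have h' : ta e.2 (D.γ e.1 x) = ta e.2 (D.γ e.1 y) := h
    exact D.γinj e.1 x y ((same_ta e.2 _).symm.trans (by rw [h']; exact same_ta _ _))
  · rintro e x ⟨⟨v, b⟩, h⟩
    have h' : ta b (D.p v) = ta e.2 (D.γ e.1 x) := h
    exact D.ends _ _ v ((same_ta e.2 _).symm.trans (h' ▸ same_ta b _))
  · rintro ⟨e, b⟩ ⟨e', c⟩ x y hne h
    have h' : ta b (D.γ e x) = ta c (D.γ e' y) := h
    have hs : Same (D.γ e x) (D.γ e' y) := (same_ta b _).symm.trans (h' ▸ same_ta c _)
    by_cases he : e = e'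
    · subst he
      obtain rfl := D.γinj _ _ _ hs
      exact absurd (by rw [ta_inj (D.γ0 _ _) h']) hne
    · obtain ⟨v, hv⟩ := D.disj _ _ _ _ he hs
      obtain ⟨k, hk⟩ := same_iff.1 ((same_ta b _).trans hv)
      exact ⟨(v, k), hk.symm⟩

/-- The sheet exchange. -/
def flip (V : Type) : Perm (V × Bool) :=
  Function.Involutive.toPerm (fun x => (x.1, !x.2)) fun x => by simp

theorem flip_apply (x : V × Bool) : flip V x = (x.1, !x.2) := rfl

theorem Draw.p'_flip (D : Draw s d) (x : V × Bool) : D.p' (flip V x) = anti (D.p' x) := by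
  obtain ⟨v, b⟩ := x
  cases b <;> simp [Draw.p', flip_apply, ta, anti_anti]

theorem Draw.split [Finite V] (D : Draw s d) (hl : ∀ e, s e ≠ d e) (hV : Even (Nat.card V))
    (N : Set (E × Bool))
    (hN : ∀ x, Nat.card {e // e ∈ N ∧ (D.s' e = x ∨ D.d' e = x)} = 1) :
    ∃ χ : V × Bool → Bool, (∀ e ∈ N, χ (D.s' e) = χ (D.d' e)) ∧
      ∀ v c, χ (v, !c) = !χ (v, c) := by
  classical
  have hl' : ∀ e, D.s' e ≠ D.d' e := fun e h => hl e.1 (congrArg Prod.fst h)
  have hex : ∀ x, ∃ e, (e ∈ N ∧ (D.s' e = x ∨ D.d' e = x)) ∧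
      ∀ e', e' ∈ N ∧ (D.s' e' = x ∨ D.d' e' = x) → e' = e := by
    intro x
    obtain ⟨hs, ⟨e⟩⟩ := Nat.card_eq_one_iff_unique.1 (hN x)
    exact ⟨e.1, e.2, fun e' h => congrArg Subtype.val (hs.elim ⟨e', h⟩ e)⟩
  choose ε hε huniq using hex
  let m0 : V × Bool → V × Bool := fun x => if D.s' (ε x) = x then D.d' (ε x) else D.s' (ε x)
  have hms : ∀ e ∈ N, m0 (D.s' e) = D.d' e := by
    intro e he
    have := huniq (D.s' e) e ⟨he, Or.inl rfl⟩
    simp only [m0, ← this, if_true]
  have hmd : ∀ e ∈ N, m0 (D.d' e) = D.s' e := by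
    intro e he
    have := huniq (D.d' e) e ⟨he, Or.inr rfl⟩
    simp only [m0, ← this, if_neg (hl' e)]
  have hcase : ∀ x, ∃ e ∈ N, (x = D.s' e ∧ m0 x = D.d' e) ∨ (x = D.d' e ∧ m0 x = D.s' e) := by
    intro x
    refine ⟨ε x, (hε x).1, ?_⟩
    rcases (hε x).2 with h | h
    · exact Or.inl ⟨h.symm, by rw [← hms _ (hε x).1, h]⟩
    · exact Or.inr ⟨h.symm, by rw [← hmd _ (hε x).1, h]⟩
  have hinv : Function.Involutive m0 := by
    intro x
    obtain ⟨e, he, ⟨h1, h2⟩ | ⟨h1, h2⟩⟩ := hcase x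
    · rw [h2, hmd e he, h1]
    · rw [h2, hms e he, h1]
  let m : Perm (V × Bool) := hinv.toPerm
  have hm0 : ∀ x, m x = m0 x := fun _ => rfl
  have ht : flip V * flip V = 1 := by
    ext1 x
    simp [flip_apply]
  have hm : m * m = 1 := by
    ext1 x
    exact hinv x
  have hO := orb_equivalence ht hm
  have hone : ∀ x y, OddPer (flip V) m x → OddPer (flip V) m y → Orb (flip V) m x y := by
    let A : V × Bool → Set ℂ := fun x =>
      {z | ∃ e ∈ N, Orb (flip V) m x (D.s' e) ∧ ∃ u, Same z (D.γ e.1 u)}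
    have hstep : ∀ x y b, Orb (flip V) m x y →
        JoinedIn (A x) (ta b (D.p' y)) (ta b (D.p' (m y))) := by
      intro x y b hxy
      have hedge : ∀ e ∈ N, Orb (flip V) m x (D.s' e) →
          JoinedIn (A x) (ta b (D.p' (D.s' e))) (ta b (D.p' (D.d' e))) := by
        intro e he hx
        refine ⟨⟨⟨fun u => ta (xor b e.2) (D.γ e.1 u), continuous_ta _ (D.cont _) (D.γ0 _)⟩,
          ?_, ?_⟩, fun u => ⟨e, he, hx, u, same_ta _ _⟩⟩
        · show ta (xor b e.2) (D.γ e.1 0) = _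
          rw [← ta_ta, D.src']
        · show ta (xor b e.2) (D.γ e.1 1) = _
          rw [← ta_ta, D.tgt']
      obtain ⟨e, he, ⟨h1, h2⟩ | ⟨h1, h2⟩⟩ := hcase y
      · rw [hm0, h2, h1]
        exact hedge e he (h1 ▸ hxy)
      · rw [hm0, h2, h1]
        exact (hedge e he (h2 ▸ hO.trans hxy (orb_m ht y))).symm
    have hjoin : ∀ x, OddPer (flip V) m x → JoinedIn (A x) (D.p' x) (anti (D.p' x)) := by
      intro x hx
      have hQ : ∀ n : ℕ, (Even n → JoinedIn (A x) (D.p' x) (D.p' (((flip V * m) ^ n) x))) ∧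
          (Odd n → JoinedIn (A x) (D.p' x) (anti (D.p' (((flip V * m) ^ n) x)))) := by
        intro n
        induction n with
        | zero =>
          exact ⟨fun _ => JoinedIn.refl (hstep x x false (hO.refl x)).source_mem,
            fun h => absurd h (by decide)⟩
        | succ n ih =>
          have ho : Orb (flip V) m x (((flip V * m) ^ n) x) := ⟨n, Or.inl (by simp)⟩
          rw [pow_succ', Perm.mul_apply, Perm.mul_apply, D.p'_flip, anti_anti]
          constructor
          · intro h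
            exact (ih.2 (Nat.not_even_iff_odd.1 (Nat.even_add_one.1 h))).trans
              (hstep x _ true ho)
          · intro h
            exact (ih.1 (Nat.not_odd_iff_even.1 (Nat.odd_add_one.1 h))).trans
              (hstep x _ false ho)
      obtain ⟨n, hn, hnx⟩ := hx.nat
      have := (hQ n).2 hn
      rwa [hnx] at this
    have hany : ∀ x (e : E × Bool), e ∈ N → Orb (flip V) m x (D.s' e) → ∀ v,
        (v = s e.1 ∨ v = d e.1) → Orb (flip V) m x (v, false) := by
      have hb : ∀ (x : V × Bool) v c, Orb (flip V) m x (v, c) → Orb (flip V) m x (v, false) := by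
        intro x v c h
        cases c
        · exact h
        · exact hO.trans h (orb_t _)
      rintro x e he hx v (rfl | rfl)
      · exact hb x _ _ hx
      · have := hO.trans hx (orb_m ht _)
        rw [hm0, hms e he] at this
        exact hb x _ _ this
    intro x y hx hy
    by_contra hxy
    refine no_two (A x) (A y) _ _ (ta_ne_zero _ (D.p0 _)) (ta_ne_zero _ (D.p0 _)) (hjoin x hx)
      (hjoin y hy) ?_
    rintro z ⟨e, he, hxe, u, hu⟩ w ⟨e', he', hye, u', hu'⟩
    have hz : z ≠ 0 := by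
      obtain ⟨b, rfl⟩ := same_iff.1 hu
      exact ta_ne_zero _ (D.γ0 _ _)
    have hns : ¬ Same w z := by
      intro h
      have hs : Same (D.γ e.1 u) (D.γ e'.1 u') := hu.symm.trans (h.symm.trans hu')
      obtain ⟨v, h1, h2⟩ : ∃ v, (v = s e.1 ∨ v = d e.1) ∧ (v = s e'.1 ∨ v = d e'.1) := by
        by_cases hee : e.1 = e'.1
        · exact ⟨s e.1, Or.inl rfl, Or.inl (by rw [hee])⟩
        · obtain ⟨v, hv⟩ := D.disj _ _ _ _ hee hs
          exact ⟨v, D.vertex hv, D.vertex (hs.symm.trans hv)⟩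
      exact hxy (hO.trans (hany x e he hxe v h1) (hO.symm (hany y e' he' hye v h2)))
    refine ⟨fun h => hns (Or.inl h.symm), fun h => hns (Or.inr ((eq_anti_iff hz).2 ?_))⟩
    linear_combination h
  obtain ⟨χ, hχ⟩ := exists_colouring ht hm
    (fun x h => by simpa [flip_apply] using congrArg Prod.snd h)
    (fun x h => by
      obtain ⟨e, -, ⟨h1, h2⟩ | ⟨h1, h2⟩⟩ := hcase x
      · exact hl' e (by rw [← h1, ← h2, ← hm0, h])
      · exact hl' e (by rw [← h1, ← h2, ← hm0, h]))
    (by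
      obtain ⟨k, hk⟩ := hV
      rw [Nat.card_prod, hk, Nat.card_eq_fintype_card (α := Bool), Fintype.card_bool]
      omega) hone
  refine ⟨χ, fun e he => ?_, fun v c => (hχ (v, c)).2⟩
  rw [← hms e he, ← hm0, (hχ _).1]

end Pool.Agent.Lib.MP_fe5cb4_co.Proj
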