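import Mathlib

/-!
Two one-sided closed curves of the projective plane meet. The plane minus the origin is the double
cover of the open Moebius band, with deck transformation `z ↦ -1 / conj z`.
-/

set_option autoImplicit false

namespace Pool.Agent.Lib.MP_fe5cb4_co.Proj

open Complex ComplexConjugate

/-- The antipodal map of the Riemann sphere. -/
noncomputable def anti (z : ℂ) : ℂ := -(conj z)⁻¹

theorem anti_anti (z : ℂ) : anti (anti z) = z := by simp [anti]

theorem anti_ne_zero {z : ℂ} (hz : z ≠ 0) : anti z ≠ 0 := by simpa [anti] using hz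

theorem anti_injective : Function.Injective anti :=
  Function.LeftInverse.injective anti_anti

theorem eq_anti_iff {z w : ℂ} (hz : z ≠ 0) : w = anti z ↔ w * conj z = -1 := by
  have hz' : conj z ≠ 0 := by simpa using hz
  unfold anti
  constructor
  · rintro rfl
    field_simp
  · intro h
    field_simp
    exact h

theorem anti_ne {z : ℂ} (hz : z ≠ 0) : anti z ≠ z := by
  intro h
  have h1 := (eq_anti_iff hz).1 h.symm
  rw [Complex.mul_conj] at h1
  have h2 : Complex.normSq z = -1 := by exact_mod_cast h1
  linarith [Complex.normSq_nonneg z]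

theorem continuous_anti {X : Type*} [TopologicalSpace X] {f : X → ℂ} (hf : Continuous f)
    (h0 : ∀ x, f x ≠ 0) : Continuous fun x => anti (f x) :=
  ((Complex.continuous_conj.comp hf).inv₀ fun x => by simpa using h0 x).neg

theorem const_of_exp {g : ℝ → ℂ} (hg : Continuous g) (c : ℂ) (h : ∀ t, exp (g t) = c) :
    g 0 = g 1 :=
  Complex.isCoveringMap_exp.const_of_comp hg
    (fun a a' => Subtype.ext ((h a).trans (h a').symm)) 0 1

theorem no_two (A B : Set ℂ) (z w : ℂ) (hz : z ≠ 0) (hw : w ≠ 0) (hA : JoinedIn A z (anti z))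
    (hB : JoinedIn B w (anti w)) (h : ∀ x ∈ A, ∀ y ∈ B, x ≠ y ∧ 1 + conj x * y ≠ 0) : False := by
  obtain ⟨a, ha⟩ := hA
  obtain ⟨b, hb⟩ := hB
  have ha' : ∀ s, a.extend s ∈ A := fun s => ha _
  have hb' : ∀ s, b.extend s ∈ B := fun s => hb _
  have hz' : conj z ≠ 0 := by simpa using hz
  have hw' : conj w ≠ 0 := by simpa using hw
  let f : C(ℝ × ℝ, ℂ) := ⟨fun q => (a.extend q.1 - b.extend q.2) /
      (1 + conj (a.extend q.1) * b.extend q.2), by
    have h1 : Continuous fun q : ℝ × ℝ => a.extend q.1 := a.continuous_extend.comp continuous_fst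
    have h2 : Continuous fun q : ℝ × ℝ => b.extend q.2 := b.continuous_extend.comp continuous_snd
    exact (h1.sub h2).div (continuous_const.add ((Complex.continuous_conj.comp h1).mul h2))
      fun q => (h _ (ha' _) _ (hb' _)).2⟩
  have hf : ∀ s t, f (s, t) = (a.extend s - b.extend t) / (1 + conj (a.extend s) * b.extend t) :=
    fun _ _ => rfl
  have hf0 : ∀ q, f q ≠ 0 := fun q =>
    div_ne_zero (sub_ne_zero.2 (h _ (ha' _) _ (hb' _)).1) (h _ (ha' _) _ (hb' _)).2
  obtain ⟨L, ⟨-, hL⟩, -⟩ := Complex.isCoveringMapOn_exp.existsUnique_continuousMap_lifts f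
    (a₀ := (0, 0)) (e₀ := log (f (0, 0))) (Complex.exp_log (hf0 _)) hf0
  have hL' : ∀ q, exp (L q) = f q := fun q => congrFun hL q
  have e1 : ∀ t, exp (L (1, t) + L (0, t)) = -(z / conj z) := by
    intro t
    rw [Complex.exp_add, hL', hL', hf, hf]
    have h1 := h _ (ha' 0) _ (hb' t)
    have h2 := h _ (ha' 1) _ (hb' t)
    simp only [Path.extend_zero, Path.extend_one] at h1 h2 ⊢
    have h3 : z - b.extend t ≠ 0 := sub_ne_zero.2 h1.1
    have h4 := h1.2
    have e : 1 + conj (anti z) * b.extend t = (z - b.extend t) / z := by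
      simp only [anti, map_neg, map_inv₀, conj_conj]
      field_simp
      ring
    have e' : anti z - b.extend t = -(1 + conj z * b.extend t) / conj z := by
      simp only [anti]
      field_simp
      ring
    rw [e, e']
    field_simp
  have e2 : ∀ s, exp (L (s, 1) + conj (L (s, 0))) = -1 := by
    intro s
    rw [Complex.exp_add, Complex.exp_conj, hL', hL', hf, hf]
    have h1 := h _ (ha' s) _ (hb' 0)
    simp only [Path.extend_zero, Path.extend_one] at h1 ⊢
    have h3 : conj (a.extend s) - conj w ≠ 0 := by
      rw [← map_sub]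
      exact (map_ne_zero _).2 (sub_ne_zero.2 h1.1)
    have h4 : 1 + a.extend s * conj w ≠ 0 := by
      have : conj (1 + conj (a.extend s) * w) ≠ 0 := (map_ne_zero _).2 h1.2
      simpa only [map_add, map_mul, map_one, conj_conj] using this
    have e : 1 + conj (a.extend s) * anti w = -(conj (a.extend s) - conj w) / conj w := by
      simp only [anti]
      field_simp
      ring
    have e' : a.extend s - anti w = (1 + a.extend s * conj w) / conj w := by
      simp only [anti]
      field_simp
      ring
    rw [e, e']
    simp only [map_div₀, map_sub, map_add, map_mul, map_one, conj_conj]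
    field_simp
  have c1 := const_of_exp (g := fun t => L (1, t) + L (0, t)) (by fun_prop) _ e1
  have c2 := const_of_exp (g := fun s => L (s, 1) + conj (L (s, 0)))
    ((by fun_prop : Continuous fun s : ℝ => L (s, 1)).add
      (Complex.continuous_conj.comp (by fun_prop : Continuous fun s : ℝ => L (s, 0)))) _ e2
  have i1 := congrArg Complex.im c1
  have i2 := congrArg Complex.im c2
  simp only [Complex.add_im, Complex.conj_im] at i1 i2
  have i3 : (L (0, 1) + conj (L (0, 0))).im = 0 := by
    simp only [Complex.add_im, Complex.conj_im]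
    linarith
  have := congrArg Complex.re (e2 0)
  rw [Complex.exp_re, i3] at this
  simp only [Real.cos_zero, mul_one, Complex.neg_re, Complex.one_re] at this
  linarith [Real.exp_pos (L (0, 1) + conj (L (0, 0))).re]

end Pool.Agent.Lib.MP_fe5cb4_co.Proj
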