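import Pool.Agent.Lib.MP_fe5cb4_co.Exact
import Pool.Agent.Shared.HoffmanCirc

/-!
Spherical maps at the level of darts: potentials, and orientations with prescribed net out-degree.
-/

set_option autoImplicit false

namespace Pool.Agent.Lib.MP_fe5cb4_co

open Finset

/-- Dart data of a connected map of Euler characteristic two. -/
structure SMap (D V F : Type) [Fintype D] [Fintype V] [Fintype F] where
  σ : Equiv.Perm D
  α : Equiv.Perm D
  o : D → Bool
  vtx : D → V
  fc : D → F
  αα : ∀ d, α (α d) = d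
  oα : ∀ d, o (α d) = !o d
  vσ : ∀ d, vtx (σ d) = vtx d
  fσ : ∀ d, fc (σ d) = fc (α d)
  vsurj : Function.Surjective vtx
  fsurj : Function.Surjective fc
  conn : ∀ S : Set D, (∀ d, σ d ∈ S ↔ d ∈ S) → (∀ d, α d ∈ S ↔ d ∈ S) →
    ∀ d d', d ∈ S → d' ∈ S
  euler : 2 * (Fintype.card V + Fintype.card F) = Fintype.card D + 4

lemma sum_perm {D A : Type} [Fintype D] [AddCommMonoid A] (π : Equiv.Perm D) (P : D → Prop)
    [DecidablePred P] (hP : ∀ d, P (π d) ↔ P d) (g : D → A) :
    ∑ d with P d, g (π d) = ∑ d with P d, g d := by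
  refine sum_bijective π π.bijective ?_ fun _ _ => rfl
  intro d
  simp [hP]

lemma sum_reindex {D A : Type} [Fintype D] [AddCommMonoid A] (π : Equiv.Perm D) (P : D → Prop)
    [DecidablePred P] (g : D → A) :
    ∑ d with P (π d), g (π d) = ∑ d with P d, g d := by
  refine sum_bijective π π.bijective ?_ fun _ _ => rfl
  intro d
  simp

/-- splitting a dart sum along the reference orientation -/
lemma sum_split {D A : Type} [Fintype D] [AddCommMonoid A] (α : Equiv.Perm D) (o : D → Bool)
    (oα : ∀ d, o (α d) = !o d) (g : D → A) :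
    ∑ d, g d = ∑ e : {d // o d = true}, g e.1 + ∑ e : {d // o d = true}, g (α e.1) := by
  classical
  rw [← sum_filter_add_sum_filter_not univ (fun d => o d = true),
    ← sum_reindex α (fun d => ¬ o d = true),
    sum_subtype (p := fun d => o d = true) _ (fun d => by simp),
    sum_subtype (p := fun d => o d = true) _ (fun d => by simp [oα])]

namespace SMap

variable {D V F : Type} [Fintype D] [Fintype V] [Fintype F] (M : SMap D V F)

lemma fφ (d : D) : M.fc (M.σ (M.α d)) = M.fc d := by rw [M.fσ, M.αα]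

/-- The dual map. -/
def dual : SMap D F V where
  σ := M.σ * M.α
  α := M.α
  o := M.o
  vtx := M.fc
  fc := M.vtx
  αα := M.αα
  oα := M.oα
  vσ := fun d => M.fφ d
  fσ := fun d => M.vσ _
  vsurj := M.fsurj
  fsurj := M.vsurj
  conn := fun S h1 h2 => M.conn S (fun d => by
    have := h1 (M.α d)
    rw [Equiv.Perm.mul_apply, M.αα] at this
    rw [this, h2]) h2
  euler := by rw [add_comm]; exact M.euler

lemma const {B : Type} (g : D → B) (h1 : ∀ d, g (M.σ d) = g d) (h2 : ∀ d, g (M.α d) = g d)
    (d d' : D) : g d = g d' :=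
  M.conn {x | g d = g x} (fun x => by simp [h1]) (fun x => by simp [h2]) d d' rfl

/-- An antisymmetric dart function with vanishing vertex sums is a difference of face values. -/
theorem face_pot [DecidableEq V] {A : Type} [AddCommGroup A] [Finite A] (ω : D → A)
    (anti : ∀ d, ω (M.α d) = -ω d) (hv : ∀ v, ∑ d with M.vtx d = v, ω d = 0) :
    ∃ p : F → A, ∀ d, p (M.fc (M.α d)) - p (M.fc d) = ω d := by
  classical
  have key : ∀ z : D → A, (∀ d, z (M.α d) = -z d) → ∀ v,
      dv (fun e : {d // M.o d = true} => M.vtx e.1) (fun e => M.vtx (M.α e.1)) (fun e => z e.1) v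
        = ∑ d with M.vtx d = v, z d := by
    intro z hz v
    rw [dv_apply, sum_filter, sum_filter, sum_filter, sum_split M.α M.o M.oα, sub_eq_add_neg,
      ← sum_neg_distrib]
    congr 1
    refine sum_congr rfl fun e _ => ?_
    split_ifs <;> simp [hz]
  obtain ⟨p, hp⟩ := exact_potential (A := A) (fun e : {d // M.o d = true} => M.vtx e.1)
    (fun e => M.vtx (M.α e.1)) (fun e => M.fc e.1) (fun e => M.fc (M.α e.1))
    (by
      intro S hS u v hu
      obtain ⟨d, rfl⟩ := M.vsurj u
      obtain ⟨d', rfl⟩ := M.vsurj v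
      refine M.conn {x | M.vtx x ∈ S} (fun x => by simp [M.vσ]) (fun x => ?_) d d' hu
      by_cases h : M.o x = true
      · exact (hS ⟨x, h⟩).symm
      · have := hS ⟨M.α x, by simpa [M.oα] using h⟩
        simpa [M.αα] using this)
    (by
      intro S hS u v hu
      obtain ⟨d, rfl⟩ := M.fsurj u
      obtain ⟨d', rfl⟩ := M.fsurj v
      have h2 : ∀ x, M.fc (M.α x) ∈ S ↔ M.fc x ∈ S := by
        intro x
        by_cases h : M.o x = true
        · exact (hS ⟨x, h⟩).symm
        · have := hS ⟨M.α x, by simpa [M.oα] using h⟩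
          simpa [M.αα] using this
      exact M.conn {x | M.fc x ∈ S} (fun x => by simp [M.fσ, h2]) h2 d d' hu)
    (by
      intro p
      funext v
      rw [key (fun d => p (M.fc (M.α d)) - p (M.fc d)) (fun d => by simp [M.αα]) v,
        sum_sub_distrib, ← sum_perm M.σ (fun d => M.vtx d = v) (fun d => by rw [M.vσ])
          (fun d => p (M.fc d))]
      simp [M.fσ])
    (by
      have h1 := sum_split M.α M.o M.oα (fun _ => (1 : ℕ))
      simp only [sum_const, card_univ, smul_eq_mul, mul_one] at h1
      have := M.euler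
      omega)
    (fun e => ω e.1) (funext fun v => by rw [key ω anti v, hv]; rfl)
  refine ⟨p, fun d => ?_⟩
  by_cases h : M.o d = true
  · exact hp ⟨d, h⟩
  · have := hp ⟨M.α d, by simpa [M.oα] using h⟩
    simp only [M.αα, anti] at this
    rw [← neg_sub, this, neg_neg]

/-- Dart potentials with prescribed steps around vertices and along faces. -/
theorem lift [DecidableEq V] [DecidableEq F] {A : Type} [AddCommGroup A] [Finite A]
    (hfc : ∀ x y, M.fc x = M.fc y → (M.σ * M.α).SameCycle x y) (x y : D → A)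
    (hx : ∀ v, ∑ d with M.vtx d = v, x d = 0) (hy : ∀ f, ∑ d with M.fc d = f, y d = 0)
    (anti : ∀ d, x d + x (M.α d) = y d + y (M.α d)) :
    ∃ U : D → A, (∀ d, U (M.σ d) = U d + x d) ∧ ∀ d, U (M.σ (M.α d)) = U d + y d := by
  obtain ⟨U0, hU0⟩ := exists_cyc (M.σ * M.α) M.fc hfc y hy
  simp only [Equiv.Perm.mul_apply] at hU0
  obtain ⟨p, hp⟩ := M.face_pot (fun d => x d - U0 (M.σ d) + U0 d)
    (by
      intro d
      have h1 := hU0 (M.α d)
      rw [M.αα] at h1
      have h2 := anti d
      rw [hU0, h1]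
      have : x (M.α d) = y d + y (M.α d) - x d := by rw [← h2]; abel
      rw [this]
      abel)
    (by
      intro v
      rw [sum_add_distrib, sum_sub_distrib, hx,
        sum_perm M.σ (fun d => M.vtx d = v) (fun d => by rw [M.vσ]) U0]
      abel)
  refine ⟨fun d => U0 d + p (M.fc d), fun d => ?_, fun d => ?_⟩
  · have := hp d
    simp only [M.fσ]
    rw [sub_eq_iff_eq_add.mp this]
    abel
  · simp only [M.fφ, hU0]
    abel

end SMap

/-- Orientations of a set of edges with prescribed net out-degree. -/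
theorem exists_orient {D W : Type} [Fintype D] [Fintype W] [DecidableEq W] (α : Equiv.Perm D)
    (o : D → Bool) (αα : ∀ d, α (α d) = d) (oα : ∀ d, o (α d) = !o d)
    (P : D → Prop) [DecidablePred P] (hP : ∀ d, P (α d) ↔ P d) (g : D → W) (b : W → ℤ)
    (hb : ∑ w, b w = 0) (par : ∀ w, Even ((#{d | P d ∧ g d = w} : ℤ) - b w))
    (cut : ∀ X : Finset W, ∑ w ∈ X, b w ≤ #{d | P d ∧ g d ∈ X ∧ g (α d) ∉ X}) :
    ∃ η : D → ℤ, (∀ d, η (α d) = -η d) ∧ (∀ d, P d → η d = 1 ∨ η d = -1) ∧
      (∀ d, ¬ P d → η d = 0) ∧ ∀ w, ∑ d with g d = w, η d = b w := by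
  classical
  let β : D → ℤ := fun d => if P d then (if o d = true then 1 else -1) else 0
  have hβ : ∀ d, β (α d) = -β d := by
    intro d
    simp only [β, hP, oα]
    by_cases h1 : P d <;> cases h2 : o d <;> simp [h1]
  have par' : ∀ w, ∃ k : ℤ, ∑ d with g d = w, β d - b w = 2 * k := by
    intro w
    have h1 : Even (∑ d with g d = w, β d - #{d | P d ∧ g d = w}) := by
      rw [card_filter, sum_filter]
      push_cast
      rw [← sum_sub_distrib]
      refine Finset.even_sum _ fun d _ => ?_
      simp only [β]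
      by_cases h1 : P d <;> by_cases h2 : g d = w <;> cases h3 : o d <;> simp [h1, h2]
    obtain ⟨k, hk⟩ := h1.add (par w)
    exact ⟨k, by linarith⟩
  choose b' hb' using par'
  have hX : ∀ X : Finset W, 2 * ∑ w ∈ X, b' w = ∑ d with g d ∈ X, β d - ∑ w ∈ X, b w := by
    intro X
    rw [mul_sum, ← sum_fiberwise_of_maps_to (s := univ.filter fun d => g d ∈ X) (t := X) (g := g)
      (fun d hd => by simpa using hd), ← sum_sub_distrib]
    refine sum_congr rfl fun w hw => ?_
    rw [← hb', filter_filter]
    congr 1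
    refine sum_congr ?_ fun _ _ => rfl
    ext d
    simp only [mem_filter, mem_univ, true_and]
    exact ⟨fun h => ⟨h ▸ hw, h⟩, fun h => h.2⟩
  have hβX : ∀ X : Finset W, ∑ d with g d ∈ X, β d = ∑ d with g d ∈ X ∧ g (α d) ∉ X, β d := by
    intro X
    have h1 : ∑ d with g d ∈ X ∧ g (α d) ∈ X, β d = 0 := by
      have h2 := sum_perm α (fun d => g d ∈ X ∧ g (α d) ∈ X) (fun d => by rw [αα, and_comm]) β
      simp only [hβ, sum_neg_distrib] at h2
      linarith
    rw [← sum_filter_add_sum_filter_not (univ.filter fun d => g d ∈ X) (fun d => g (α d) ∈ X),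
      filter_filter, filter_filter, h1, zero_add]
  obtain ⟨f, hf, hf'⟩ := Pool.Agent.Shared.HoffmanCirc.hoffman g (fun d => g (α d)) (fun _ => 0)
    (fun d => if P d ∧ o d = true then 1 else 0) b'
    (by
      have h1 := hX univ
      rw [hβX, hb] at h1
      simp at h1
      exact h1)
    (fun d => by split_ifs <;> norm_num)
    (by
      intro X
      have h1 := hX X
      have h2 := cut Xᶜ
      have h3 := sum_add_sum_compl X b
      rw [hβX] at h1
      have h4 : (#{d | P d ∧ g d ∈ Xᶜ ∧ g (α d) ∉ Xᶜ} : ℤ)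
          = ∑ d with g d ∈ X ∧ g (α d) ∉ X, (if P d then 1 else 0) := by
        rw [← sum_reindex α (fun d => g d ∈ X ∧ g (α d) ∉ X), card_filter, sum_filter]
        push_cast
        refine sum_congr rfl fun d _ => ?_
        simp only [αα, hP, mem_compl, not_not]
        by_cases h1 : P d <;> by_cases h2 : g d ∈ X <;> by_cases h3 : g (α d) ∈ X <;>
          simp [h1, h2, h3]
      have h5 : ∑ d with g d ∈ X ∧ g (α d) ∉ X, β d
          + ∑ d with g d ∈ X ∧ g (α d) ∉ X, (if P d then 1 else 0 : ℤ)
          = 2 * ∑ d with g d ∈ X ∧ g (α d) ∉ X, (if P d ∧ o d = true then 1 else 0 : ℤ) := by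
        rw [← sum_add_distrib, mul_sum]
        refine sum_congr rfl fun d _ => ?_
        simp only [β]
        by_cases h1 : P d <;> cases h3 : o d <;> simp [h1]
      simp only [sum_const_zero, sub_zero]
      linarith)
  refine ⟨fun d => β d - 2 * f d + 2 * f (α d), fun d => ?_, fun d hd => ?_, fun d hd => ?_,
    fun w => ?_⟩
  · simp only [hβ, αα]
    ring
  · have h1 := hf d
    have h2 := hf (α d)
    simp only [hP, oα, β, hd] at h1 h2 ⊢
    cases h3 : o d <;> simp [h3] at h1 h2 ⊢ <;> omega
  · have h1 := hf d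
    have h2 := hf (α d)
    simp only [hP, oα, β, hd] at h1 h2 ⊢
    simp at h1 h2 ⊢
    omega
  · have h1 := hf' w
    have h2 := hb' w
    have h3 : ∑ d with g (α d) = w, f d = ∑ d with g d = w, f (α d) := by
      rw [← sum_reindex α (fun d => g d = w)]
      simp only [αα]
    rw [sum_add_distrib, sum_sub_distrib, ← mul_sum, ← mul_sum]
    linarith

end Pool.Agent.Lib.MP_fe5cb4_co
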